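import Mathlib

/-!
# Products of rational matrices of small height
-/

set_option autoImplicit false

namespace Pool.Agent.T2H64.EN

open Finset

/-- from `n₀` on the vectors `v n` are moved by rational matrices of subexponential height:
`v (n + 1) = M v(n) / q` -/
def Cocycle {d : ℕ} (B η : ℝ) (n₀ : ℕ) (v : ℕ → Fin d → ℝ) : Prop :=
  ∀ n, n₀ ≤ n → ∃ (q : ℤ) (M : Fin d → Fin d → ℤ), q ≠ 0 ∧
    |(q : ℝ)| ≤ Real.exp (B * (n : ℝ) ^ (1 - η)) ∧
    (∀ i j, |(M i j : ℝ)| ≤ Real.exp (B * (n : ℝ) ^ (1 - η))) ∧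
    ∀ i, q * v (n + 1) i = ∑ j, M i j * v n j

/-- iteration of a cocycle in a window -/
theorem iter {d : ℕ} {v : ℕ → Fin d → ℝ} (n : ℕ) (H : ℝ) (hH : 1 ≤ H) (W : ℕ)
    (hv : ∀ m, n ≤ m → m < n + W → ∃ (q : ℤ) (M : Fin d → Fin d → ℤ), q ≠ 0 ∧
      |(q : ℝ)| ≤ H ∧ (∀ i j, |(M i j : ℝ)| ≤ H) ∧ ∀ i, q * v (m + 1) i = ∑ j, M i j * v m j) :
    ∃ (Q : ℤ) (G : ℕ → Fin d → Fin d → ℤ), Q ≠ 0 ∧
      (∀ j ≤ W, ∀ i k, |(G j i k : ℝ)| ≤ (((d : ℝ) + 1) * H) ^ W) ∧
      ∀ j ≤ W, ∀ i, Q * v (n + j) i = ∑ k, G j i k * v n k := by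
  induction W with
  | zero =>
    refine ⟨1, fun _ i k => if i = k then 1 else 0, one_ne_zero, ?_, ?_⟩
    · intro j _ i k
      simp only [pow_zero]
      split_ifs <;> simp
    · intro j hj i
      have : j = 0 := by omega
      subst this
      simp
  | succ W ih =>
    obtain ⟨Q, G, hQ, hG1, hG2⟩ := ih (fun m h1 h2 => hv m h1 (by omega))
    obtain ⟨q, M, hq, hq1, hM1, hM2⟩ := hv (n + W) (by omega) (by omega)
    have hH0 : 0 ≤ H := by linarith
    have hd0 : (0 : ℝ) ≤ d := Nat.cast_nonneg d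
    have hb : (1 : ℝ) ≤ ((d : ℝ) + 1) * H := by nlinarith
    have hb0 : 0 ≤ (((d : ℝ) + 1) * H) ^ W := by positivity
    refine ⟨q * Q, fun j i k => if j = W + 1 then ∑ l, M i l * G W l k else q * G j i k,
      mul_ne_zero hq hQ, ?_, ?_⟩
    · intro j hj i k
      by_cases h : j = W + 1
      · simp only [h, if_true]
        push_cast
        refine (Finset.abs_sum_le_sum_abs _ _).trans ?_
        have h1 : ∀ l ∈ (Finset.univ : Finset (Fin d)), |(M i l : ℝ) * G W l k| ≤
            H * (((d : ℝ) + 1) * H) ^ W := by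
          intro l _
          rw [abs_mul]
          exact mul_le_mul (hM1 i l) (hG1 W le_rfl l k) (abs_nonneg _) hH0
        refine (Finset.sum_le_sum h1).trans ?_
        rw [Finset.sum_const, Finset.card_univ, Fintype.card_fin, nsmul_eq_mul, pow_succ]
        nlinarith [mul_nonneg hH0 hb0]
      · simp only [h, if_false]
        push_cast
        rw [abs_mul, pow_succ, mul_comm]
        refine mul_le_mul (hG1 j (by omega) i k) (hq1.trans ?_) (abs_nonneg _) hb0
        nlinarith
    · intro j hj i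
      by_cases h : j = W + 1
      · subst h
        simp only [if_true]
        push_cast
        have h1 := hM2 i
        have h2 : (q : ℝ) * Q * v (n + (W + 1)) i = Q * (q * v (n + W + 1) i) := by
          rw [← add_assoc]; ring
        rw [h2, h1, Finset.mul_sum]
        have h3 : ∀ l, (Q : ℝ) * (M i l * v (n + W) l) = ∑ k, M i l * (G W l k * v n k) := by
          intro l
          rw [← Finset.mul_sum, ← hG2 W le_rfl l]
          ring
        simp_rw [h3]
        rw [Finset.sum_comm]
        refine Finset.sum_congr rfl fun k _ => ?_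
        rw [Finset.sum_mul]
        refine Finset.sum_congr rfl fun l _ => ?_
        ring
      · simp only [h, if_false]
        push_cast
        have h1 := hG2 j (by omega) i
        rw [mul_assoc, h1, Finset.mul_sum]
        refine Finset.sum_congr rfl fun k _ => ?_
        ring

/-- iteration of the multipliers in a window -/
theorem iter1 {x : ℕ → ℝ} (s : ℝ) (n : ℕ) (H : ℝ) (hH : 1 ≤ H) (W : ℕ)
    (hx : ∀ m, n ≤ m → m < n + W → ∃ (p q : ℤ), p ≠ 0 ∧ q ≠ 0 ∧
      |(p : ℝ)| ≤ H ∧ |(q : ℝ)| ≤ H ∧ q * x (m + 1) = p * (Real.exp s * x m)) :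
    ∃ (Q : ℤ) (g : ℕ → ℤ), Q ≠ 0 ∧ |(Q : ℝ)| ≤ H ^ W ∧ (∀ j ≤ W, g j ≠ 0) ∧
      (∀ j ≤ W, |(g j : ℝ)| ≤ H ^ W) ∧
      ∀ j ≤ W, Q * x (n + j) = g j * (Real.exp (s * j) * x n) := by
  induction W with
  | zero =>
    refine ⟨1, fun _ => 1, one_ne_zero, by simp, fun _ _ => one_ne_zero, by simp, ?_⟩
    intro j hj
    have : j = 0 := by omega
    subst this
    simp
  | succ W ih =>
    obtain ⟨Q, g, hQ, hQ1, hg0, hg1, hg2⟩ := ih (fun m h1 h2 => hx m h1 (by omega))
    obtain ⟨p, q, hp, hq, hp1, hq1, hpq⟩ := hx (n + W) (by omega) (by omega)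
    have hH0 : 0 ≤ H := by linarith
    have hb0 : 0 ≤ H ^ W := by positivity
    refine ⟨q * Q, fun j => if j = W + 1 then p * g W else q * g j, mul_ne_zero hq hQ, ?_, ?_, ?_, ?_⟩
    · push_cast
      rw [abs_mul, pow_succ, mul_comm]
      exact mul_le_mul hQ1 hq1 (abs_nonneg _) hb0
    · intro j hj
      by_cases h : j = W + 1
      · simp only [h, if_true]
        exact mul_ne_zero hp (hg0 W le_rfl)
      · simp only [h, if_false]
        exact mul_ne_zero hq (hg0 j (by omega))
    · intro j hj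
      by_cases h : j = W + 1
      · simp only [h, if_true]
        push_cast
        rw [abs_mul, pow_succ, mul_comm]
        exact mul_le_mul (hg1 W le_rfl) hp1 (abs_nonneg _) hb0
      · simp only [h, if_false]
        push_cast
        rw [abs_mul, pow_succ, mul_comm]
        exact mul_le_mul (hg1 j (by omega)) hq1 (abs_nonneg _) hb0
    · intro j hj
      by_cases h : j = W + 1
      · subst h
        simp only [if_true]
        push_cast
        have h1 := hg2 W le_rfl
        have h2 : (q : ℝ) * Q * x (n + (W + 1)) = Q * (q * x (n + W + 1)) := by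
          rw [← add_assoc]; ring
        have h3 : Real.exp (s * ((W : ℝ) + 1)) = Real.exp s * Real.exp (s * W) := by
          rw [← Real.exp_add]; congr 1; ring
        rw [h2, hpq, h3]
        calc (Q : ℝ) * (p * (Real.exp s * x (n + W))) = p * Real.exp s * (Q * x (n + W)) := by ring
          _ = _ := by rw [h1]; ring
      · simp only [h, if_false]
        push_cast
        have h1 := hg2 j (by omega)
        rw [mul_assoc, h1]
        ring

end Pool.Agent.T2H64.EN
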