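import Pool.Agent.T2H64.EN.Win
import Pool.Agent.T2H64.EN.Coc

/-!
# The numbers `x n`, `x (n + 1) = (p / q) e ^ s x n`, and rational cocycles: one window
-/

set_option autoImplicit false

namespace Pool.Agent.T2H64.EN

open Finset Filter Pool.Agent.H771R3.EN Pool.Agent.TH373.EN

/-- `x n` is exponentially close to a combination of `1, v n` with small coefficients -/
def Close {d : ℕ} (κ δ : ℝ) (x : ℕ → ℝ) (v : ℕ → Fin d → ℝ) (n : ℕ) : Prop :=
  ∃ (a b : ℤ) (c : Fin d → ℤ), b ≠ 0 ∧ |(b : ℝ)| ≤ Real.exp (κ * n) ∧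
    (∀ i, |(c i : ℝ)| ≤ Real.exp (κ * n)) ∧
    |a + b * x n + ∑ i, c i * v n i| < Real.exp (-(δ * n))

/-- the exponent attached to `k` -/
def Ek (s : ℚ) (W k : ℕ) : ℕ := if 0 < s then s.num.natAbs * k else s.num.natAbs * (W - k)

/-- the shift attached to the class `c` -/
noncomputable def Fc (s : ℚ) (W c : ℕ) : ℝ :=
  if 0 < s then (s : ℝ) * c else (s : ℝ) * c - s.num.natAbs * W

theorem natAbs_cast (s : ℚ) : ((s.num.natAbs : ℕ) : ℝ) = |(s : ℝ)| * s.den := by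
  have h1 : ((s.num.natAbs : ℕ) : ℝ) = |(s.num : ℝ)| := by
    rw [← Int.cast_abs, Int.abs_eq_natAbs]
    simp
  have h2 : (s : ℝ) * s.den = s.num := by
    exact_mod_cast Rat.mul_den_eq_num s
  rw [h1, ← h2, abs_mul, abs_of_nonneg (Nat.cast_nonneg (α := ℝ) s.den)]

theorem expo_eq (s : ℚ) (W j : ℕ) (hj : j ≤ W) :
    (s : ℝ) * j = Ek s W (j / s.den) + Fc s W (j % s.den) := by
  have h1 : (j : ℝ) = s.den * ((j / s.den : ℕ) : ℝ) + ((j % s.den : ℕ) : ℝ) := by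
    exact_mod_cast (Nat.div_add_mod j s.den).symm
  have hk : j / s.den ≤ W := (Nat.div_le_self _ _).trans hj
  unfold Ek Fc
  by_cases hs : 0 < s
  · rw [if_pos hs, if_pos hs]
    push_cast
    rw [natAbs_cast, abs_of_pos (by exact_mod_cast hs)]
    have : (s : ℝ) * j = s * (s.den * ((j / s.den : ℕ) : ℝ) + ((j % s.den : ℕ) : ℝ)) := by
      rw [← h1]
    rw [this]
    ring
  · rw [if_neg hs, if_neg hs]
    push_cast [Nat.cast_sub hk]
    rw [natAbs_cast, abs_of_nonpos (by exact_mod_cast (not_lt.1 hs))]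
    have : (s : ℝ) * j = s * (s.den * ((j / s.den : ℕ) : ℝ) + ((j % s.den : ℕ) : ℝ)) := by
      rw [← h1]
    rw [this]
    ring

theorem Ek_le (s : ℚ) (W k : ℕ) (hk : k ≤ W) : Ek s W k ≤ s.num.natAbs * W := by
  unfold Ek
  split_ifs
  · exact Nat.mul_le_mul_left _ hk
  · exact Nat.mul_le_mul_left _ (Nat.sub_le _ _)

theorem Ek_inj (s : ℚ) (hs : s ≠ 0) (W k l : ℕ) (hk : k ≤ W) (hl : l ≤ W)
    (h : Ek s W k = Ek s W l) : k = l := by
  have hu : 0 < s.num.natAbs := Int.natAbs_pos.2 (Rat.num_ne_zero.2 hs)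
  unfold Ek at h
  split_ifs at h
  · exact Nat.eq_of_mul_eq_mul_left hu h
  · have := Nat.eq_of_mul_eq_mul_left hu h
    omega

theorem Fc_abs (s : ℚ) (W c : ℕ) (hc : c < s.den) :
    |Fc s W c| ≤ s.num.natAbs * ((W : ℝ) + 1) := by
  have h1 : |(s : ℝ) * c| ≤ s.num.natAbs := by
    rw [natAbs_cast, abs_mul, abs_of_nonneg (Nat.cast_nonneg (α := ℝ) c)]
    exact mul_le_mul_of_nonneg_left (by exact_mod_cast hc.le) (abs_nonneg _)
  have h0 : (0 : ℝ) ≤ (s.num.natAbs : ℝ) := Nat.cast_nonneg _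
  have h2 : (0 : ℝ) ≤ (s.num.natAbs : ℝ) * W := by positivity
  unfold Fc
  split_ifs
  · linarith
  · refine (abs_sub _ _).trans ?_
    rw [abs_of_nonneg h2]
    linarith

open Classical in
/-- one class in one window -/
theorem core {d : ℕ} (s : ℚ) (hs : s ≠ 0) (κ η δ : ℝ) (hη : 0 < η) (hη1 : η ≤ 1)
    (hδ : 0 < δ) (hδ1 : δ ≤ 1) (n₂ : ℕ)
    (hwin : ∀ n : ℕ, n₂ ≤ n → ∀ W : ℕ, (W : ℝ) ≤ (n : ℝ) ^ (kap d (δ * η / 2)) →
      ∀ ξ : ℝ, ξ ≠ 0 → |Real.log (|ξ|)| ≤ 1 → ∀ τ : Fin d → ℝ,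
      ((range W).filter (fun j : ℕ => BadS τ (δ * η / 2) ξ (n + j))).card ≤
        ⌈24 / ((δ * η / 2) / (d + 2))⌉₊)
    (n W : ℕ) (Z H : ℝ) (hn : 1 ≤ n) (hWn : W ≤ n) (hH : 1 ≤ H) (hκ : 0 ≤ κ)
    (hP : ((d : ℝ) + 1) * (((d : ℝ) + 1) * H) ^ W ≤ Real.exp Z)
    (hZ1 : 1 ≤ Z) (hZu : s.num.natAbs * ((W : ℝ) + 1) ≤ Z)
    (hκ2 : κ ≤ ((δ * η / 2) / (d + 2)) ^ 2 * η / 80000)
    (hZn : Z ≤ ((δ * η / 2) / (d + 2)) ^ 2 * η / 40000 * n)
    (hn₂ : (n₂ : ℝ) ≤ η * n / 4)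
    (hWk : ((s.num.natAbs * W + 1 : ℕ) : ℝ) ≤ (η * n / 4) ^ (kap d (δ * η / 2)))
    (x : ℕ → ℝ) (v : ℕ → Fin d → ℝ)
    (hv : ∀ m, n ≤ m → m < n + W → ∃ (q : ℤ) (M : Fin d → Fin d → ℤ), q ≠ 0 ∧
      |(q : ℝ)| ≤ H ∧ (∀ i j, |(M i j : ℝ)| ≤ H) ∧ ∀ i, q * v (m + 1) i = ∑ j, M i j * v m j)
    (hx : ∀ m, n ≤ m → m < n + W → ∃ (p q : ℤ), p ≠ 0 ∧ q ≠ 0 ∧
      |(p : ℝ)| ≤ H ∧ |(q : ℝ)| ≤ H ∧ q * x (m + 1) = p * (Real.exp s * x m))
    (hxl : Real.exp (η * n) ≤ |x n|) (hxu : |x n| ≤ Real.exp (n / η))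
    (c : ℕ) (hc : c < s.den) :
    ((range (W + 1)).filter (fun j : ℕ => j % s.den = c ∧ Close κ δ x v (n + j))).card ≤
      ⌈24 / ((δ * η / 2) / (d + 2))⌉₊ := by
  have hd0 : (0 : ℝ) ≤ d := Nat.cast_nonneg d
  obtain ⟨δ', hδ'⟩ : ∃ δ', δ' = δ * η / 2 := ⟨_, rfl⟩
  rw [← hδ'] at hκ2 hZn hWk hwin ⊢
  have hδ0 : 0 < δ' := by rw [hδ']; positivity
  have hδle : δ' ≤ 1 / 2 := by
    rw [hδ']
    have : δ * η ≤ 1 := mul_le_one₀ hδ1 hη.le hη1
    linarith
  obtain ⟨ε, hε⟩ : ∃ ε, ε = δ' / ((d : ℝ) + 2) := ⟨_, rfl⟩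
  have hε0 : 0 < ε := by rw [hε]; positivity
  have hε1 : ε ≤ 1 := by
    rw [hε, div_le_one (by positivity)]
    linarith
  have hε2 : ε ^ 2 ≤ 1 := by
    rw [sq]
    exact mul_le_one₀ hε1 hε0.le hε1
  rw [← hε] at hκ2 hZn
  have hnr : (1 : ℝ) ≤ n := by exact_mod_cast hn
  have hcoef : ε ^ 2 * η ≤ η := mul_le_of_le_one_left hη.le hε2
  have hcoef0 : 0 < ε ^ 2 * η := by positivity
  have hZη : Z ≤ η * n / 40000 := by
    refine hZn.trans ?_
    have : ε ^ 2 * η / 40000 * n = (ε ^ 2 * η) * n / 40000 := by ring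
    rw [this]
    have := mul_le_mul_of_nonneg_right hcoef (show (0 : ℝ) ≤ n by linarith)
    linarith
  obtain ⟨Qx, g, hQx, hQx1, hg0, hg1, hg2⟩ := iter1 (s : ℝ) n H hH W hx
  obtain ⟨Qv, G, hQv, hG1, hG2⟩ := iter n H hH W hv
  have hDH : H ^ W ≤ (((d : ℝ) + 1) * H) ^ W := by
    apply pow_le_pow_left₀ (by linarith)
    nlinarith
  have hPd : (((d : ℝ) + 1) * H) ^ W ≤ Real.exp Z := by
    refine le_trans ?_ hP
    have : (0 : ℝ) ≤ (((d : ℝ) + 1) * H) ^ W := by positivity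
    nlinarith
  have hHZ : H ^ W ≤ Real.exp Z := hDH.trans hPd
  have hxn : 0 < |x n| := (Real.exp_pos _).trans_le hxl
  have hxn0 : x n ≠ 0 := abs_pos.1 hxn
  have hQ1 : (1 : ℝ) ≤ |(Qx : ℝ)| := by
    have := Int.one_le_abs hQx
    rw [← Int.cast_abs]
    exact_mod_cast this
  have hQ0 : (Qx : ℝ) ≠ 0 := by exact_mod_cast hQx
  have hQv0 : (Qv : ℝ) ≠ 0 := by exact_mod_cast hQv
  -- the multiplier
  obtain ⟨ξ₂, hξ₂⟩ : ∃ y, y = x n * Real.exp (Fc s W c) / Qx := ⟨_, rfl⟩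
  have hξ₂0 : ξ₂ ≠ 0 := by
    rw [hξ₂]
    exact div_ne_zero (mul_ne_zero hxn0 (Real.exp_ne_zero _)) hQ0
  obtain ⟨y, hy⟩ : ∃ y, y = Real.log |ξ₂| := ⟨_, rfl⟩
  have hyeq : y = Real.log |x n| + Fc s W c - Real.log |(Qx : ℝ)| := by
    rw [hy, hξ₂, abs_div, abs_mul, Real.log_div (by positivity) (by positivity),
      Real.log_mul (by positivity) (by positivity), abs_of_pos (Real.exp_pos _), Real.log_exp]
  have hlogx1 : η * n ≤ Real.log |x n| := by
    rw [Real.le_log_iff_exp_le hxn]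
    exact hxl
  have hlogx2 : Real.log |x n| ≤ n / η := by
    rw [Real.log_le_iff_le_exp hxn]
    exact hxu
  have hlogQ1 : 0 ≤ Real.log |(Qx : ℝ)| := Real.log_nonneg hQ1
  have hlogQ2 : Real.log |(Qx : ℝ)| ≤ Z := by
    rw [Real.log_le_iff_le_exp (by linarith)]
    exact hQx1.trans hHZ
  have hF := (Fc_abs s W c hc).trans hZu
  have hF1 := abs_le.1 hF
  have hy1 : η * n - 2 * Z ≤ y := by rw [hyeq]; linarith [hF1.1]
  have hy2 : y ≤ n / η + Z := by rw [hyeq]; linarith [hF1.2]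
  have hy0 : 0 ≤ y := by nlinarith
  obtain ⟨n₁, hn₁⟩ : ∃ m, m = ⌊y⌋₊ := ⟨_, rfl⟩
  have hn₁1 : (n₁ : ℝ) ≤ y := by rw [hn₁]; exact Nat.floor_le hy0
  have hn₁2 : y < n₁ + 1 := by rw [hn₁]; exact Nat.lt_floor_add_one y
  have hn₁3 : η * n / 4 ≤ n₁ := by
    have h1 : 1 ≤ η * n / 4 := by linarith
    linarith
  obtain ⟨ξ, hξ⟩ : ∃ y, y = ξ₂ / Real.exp n₁ := ⟨_, rfl⟩
  have hξ0 : ξ ≠ 0 := by rw [hξ]; exact div_ne_zero hξ₂0 (Real.exp_ne_zero _)
  have hlogξ : Real.log |ξ| = y - n₁ := by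
    rw [hξ, abs_div, Real.log_div (abs_ne_zero.2 hξ₂0) (by positivity), ← hy,
      abs_of_pos (Real.exp_pos _), Real.log_exp]
  have hξ1 : |Real.log (|ξ|)| ≤ 1 := by
    rw [hlogξ, abs_le]
    constructor <;> linarith
  have hξexp : ∀ m : ℕ, ξ * Real.exp ((n₁ + m : ℕ) : ℝ) = ξ₂ * Real.exp m := by
    intro m
    push_cast
    rw [hξ, Real.exp_add]
    have := Real.exp_ne_zero (n₁ : ℝ)
    field_simp
  have hmain := hwin n₁ (by exact_mod_cast hn₂.trans hn₁3) (s.num.natAbs * W + 1)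
    (hWk.trans (Real.rpow_le_rpow (by positivity) hn₁3 (kap_pos d δ' hδ0).le)) ξ hξ0 hξ1
    (fun k => v n k / Qv)
  refine le_trans ?_ hmain
  refine Finset.card_le_card_of_injOn (fun j => Ek s W (j / s.den)) ?_ ?_
  · intro j hj
    rw [Finset.mem_coe, mem_filter, mem_range] at hj
    obtain ⟨hjW, hjc, hcl⟩ := hj
    have hjW' : j ≤ W := by omega
    have hk : j / s.den ≤ W := (Nat.div_le_self _ _).trans hjW'
    have hE := Ek_le s W (j / s.den) hk
    rw [Finset.mem_coe, mem_filter, mem_range]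
    refine ⟨by simpa using Nat.lt_succ_of_le hE, ?_⟩
    obtain ⟨a, b, c', hb, hb1, hc1, hlt⟩ := hcl
    have hEr : ((Ek s W (j / s.den) : ℕ) : ℝ) ≤ Z := by
      have h1 : ((Ek s W (j / s.den) : ℕ) : ℝ) ≤ s.num.natAbs * W := by exact_mod_cast hE
      have h2 : (0 : ℝ) ≤ s.num.natAbs := Nat.cast_nonneg _
      nlinarith
    have hE0 : (0 : ℝ) ≤ ((Ek s W (j / s.den) : ℕ) : ℝ) := Nat.cast_nonneg _
    have hjn : ((n + j : ℕ) : ℝ) ≤ 2 * n := by
      have : n + j ≤ 2 * n := by omega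
      exact_mod_cast this
    have hjn' : (n : ℝ) ≤ ((n + j : ℕ) : ℝ) := by exact_mod_cast Nat.le_add_right n j
    have hκb : Real.exp (κ * ((n + j : ℕ) : ℝ)) * Real.exp Z ≤
        Real.exp ((δ' / (d + 2)) ^ 2 / 5000 * ((n₁ + Ek s W (j / s.den) : ℕ) : ℝ)) := by
      rw [← Real.exp_add]
      apply Real.exp_le_exp.2
      rw [← hε]
      push_cast at hjn hjn' ⊢
      have h1 : κ * ((n : ℝ) + j) ≤ κ * (2 * n) := mul_le_mul_of_nonneg_left hjn hκ
      have h2 : κ * (2 * n) ≤ ε ^ 2 * η / 80000 * (2 * n) :=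
        mul_le_mul_of_nonneg_right hκ2 (by positivity)
      have h3 : ε ^ 2 / 5000 * (η * n / 4) ≤ ε ^ 2 / 5000 * (n₁ + Ek s W (j / s.den)) :=
        mul_le_mul_of_nonneg_left (by linarith) (by positivity)
      have h4 : ε ^ 2 / 5000 * (η * n / 4) = ε ^ 2 * η * n / 20000 := by ring
      have h5 : ε ^ 2 * η / 80000 * (2 * n) = ε ^ 2 * η * n / 40000 := by ring
      have h6 : ε ^ 2 * η / 40000 * n = ε ^ 2 * η * n / 40000 := by ring
      linarith
    refine ⟨a, b * g j, fun k => ∑ i, c' i * G j i k, mul_ne_zero hb (hg0 j hjW'), ?_, ?_, ?_⟩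
    · push_cast
      rw [abs_mul]
      refine le_trans ?_ (by exact_mod_cast hκb)
      exact mul_le_mul (by exact_mod_cast hb1) ((hg1 j hjW').trans hHZ) (abs_nonneg _)
        (Real.exp_pos _).le
    · intro k
      refine le_trans ?_ (by exact_mod_cast hκb)
      push_cast
      refine (Finset.abs_sum_le_sum_abs _ _).trans ?_
      have h1 : ∀ i ∈ (Finset.univ : Finset (Fin d)), |(c' i : ℝ) * G j i k| ≤
          Real.exp (κ * ((n : ℝ) + j)) * (((d : ℝ) + 1) * H) ^ W := by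
        intro i _
        rw [abs_mul]
        exact mul_le_mul (by exact_mod_cast hc1 i) (hG1 j hjW' i k) (abs_nonneg _)
          (Real.exp_pos _).le
      refine (Finset.sum_le_sum h1).trans ?_
      rw [Finset.sum_const, Finset.card_univ, Fintype.card_fin, nsmul_eq_mul]
      have h2 : (0 : ℝ) ≤ (((d : ℝ) + 1) * H) ^ W := by positivity
      calc (d : ℝ) * (Real.exp (κ * ((n : ℝ) + j)) * (((d : ℝ) + 1) * H) ^ W)
          = Real.exp (κ * ((n : ℝ) + j)) * (d * (((d : ℝ) + 1) * H) ^ W) := by ring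
        _ ≤ Real.exp (κ * ((n : ℝ) + j)) * (((d : ℝ) + 1) * (((d : ℝ) + 1) * H) ^ W) := by
            gcongr
            linarith
        _ ≤ _ := mul_le_mul_of_nonneg_left hP (Real.exp_pos _).le
    · have e1 : (b : ℝ) * x (n + j) =
          ((b * g j : ℤ) : ℝ) * (ξ * Real.exp ((n₁ + Ek s W (j / s.den) : ℕ) : ℝ)) := by
        have h1 := hg2 j hjW'
        rw [hξexp, hξ₂]
        have h2 : Real.exp (s * j) = Real.exp (Ek s W (j / s.den)) * Real.exp (Fc s W c) := by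
          rw [← Real.exp_add, expo_eq s W j hjW', hjc]
        rw [h2] at h1
        have h3 : x (n + j) = g j * (Real.exp (Ek s W (j / s.den)) * Real.exp (Fc s W c) * x n) / Qx := by
          rw [eq_div_iff hQ0, mul_comm]
          exact h1
        rw [h3]
        push_cast
        ring
      have e2 : ∑ i, (c' i : ℝ) * v (n + j) i =
          ∑ k, ((∑ i, c' i * G j i k : ℤ) : ℝ) * (v n k / Qv) := by
        have h1 : ∀ i, (c' i : ℝ) * v (n + j) i = ∑ k, (c' i : ℝ) * (G j i k) * (v n k / Qv) := by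
          intro i
          have h2 : v (n + j) i = (∑ k, G j i k * v n k) / Qv := by
            rw [eq_div_iff hQv0, mul_comm]
            exact hG2 j hjW' i
          rw [h2, Finset.sum_div, Finset.mul_sum]
          refine Finset.sum_congr rfl fun k _ => ?_
          ring
        rw [Finset.sum_congr rfl fun i _ => h1 i, Finset.sum_comm]
        refine Finset.sum_congr rfl fun k _ => ?_
        push_cast
        rw [Finset.sum_mul]
      rw [e1, e2] at hlt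
      refine hlt.trans_le ?_
      apply Real.exp_le_exp.2
      rw [neg_le_neg_iff]
      push_cast
      have h1 : (n₁ : ℝ) + Ek s W (j / s.den) ≤ n / η + 2 * Z := by linarith
      have h2 : δ' * ((n₁ : ℝ) + Ek s W (j / s.den)) ≤ δ' * (n / η + 2 * Z) :=
        mul_le_mul_of_nonneg_left h1 hδ0.le
      have h3 : δ' * (n / η + 2 * Z) = δ * n / 2 + δ * η * Z := by
        rw [hδ']
        field_simp
      have h4 : δ * η * Z ≤ δ * (n / 2) := by
        rw [mul_assoc]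
        apply mul_le_mul_of_nonneg_left _ hδ.le
        have h5 : η * Z ≤ 1 * (η * n / 40000) := mul_le_mul hη1 hZη (by linarith) (by norm_num)
        have h6 : η * n ≤ 1 * n := mul_le_mul_of_nonneg_right hη1 (by linarith)
        linarith
      have h7 : δ * (n : ℝ) ≤ δ * (n + j) := by
        apply mul_le_mul_of_nonneg_left _ hδ.le
        have : (0 : ℝ) ≤ j := Nat.cast_nonneg j
        linarith
      linarith
  · intro j hj l hl h
    rw [Finset.mem_coe, mem_filter, mem_range] at hj hl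
    have h1 := Ek_inj s hs W _ _ ((Nat.div_le_self j s.den).trans (by omega))
      ((Nat.div_le_self l s.den).trans (by omega)) h
    have h2 := Nat.div_add_mod j s.den
    have h3 := Nat.div_add_mod l s.den
    rw [h1, hj.2.1] at h2
    rw [hl.2.1] at h3
    omega

end Pool.Agent.T2H64.EN
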