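import Pool.Agent.T2H64.EN.Sieve
import Pool.Agent.R485.Trans.Saw

/-!
# Discrepancy of polynomial dilates
-/

set_option autoImplicit false

namespace Pool.Agent.T2H64.EN

open Finset Filter Polynomial Pool.Agent.H332R2.Lit

theorem e_eq (t : ℝ) : Pool.Agent.H469R2.NK.e t = e t := by
  unfold Pool.Agent.H469R2.NK.e e
  congr 1
  push_cast
  ring

open Classical in
/-- the large sieve inequality in a long interval -/
theorem sieve_range (D d : ℕ) (s : ℚ) (hs : s ≠ 0) (B η δ : ℝ) (hη : 0 < η) (hη1 : η ≤ 1)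
    (hδ : 0 < δ) (hδ1 : δ ≤ 1) : ∃ κ : ℝ, 0 < κ ∧ κ ≤ 1 ∧ ∃ n₁ : ℕ, ∀ (n₀ : ℕ) (x : ℕ → ℝ)
      (v : ℕ → Fin d → ℝ), Expo s B η n₀ x → Cocycle B η n₀ v → ∀ N a : ℕ, 1 ≤ N → n₀ ≤ a → n₁ ≤ a →
      Real.sqrt N ≤ a → ∀ S : Finset ℕ, S ⊆ Icc a N → ∀ P : ℕ → ℝ[X],
      (∀ m ∈ S, Lead D κ x v (P m) m) → ∀ K : ℕ, Real.exp (δ * N) ≤ K → ∀ z : ℕ → ℂ,
      ∑ k ∈ range K, ‖∑ m ∈ S, z m * e ((P m).eval (k : ℝ))‖ ^ 2 ≤
        3 * ((s.den * ⌈192 * ((d : ℝ) + 3) / (δ * η)⌉₊ + 1 : ℕ) : ℝ) * (N : ℝ) ^ (1 - κ / 2) * K *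
          ∑ m ∈ S, ‖z m‖ ^ 2 := by
  obtain ⟨κ, hκ0, hκ1, n₁, h⟩ := sieve_window D d s hs B η δ hη hη1 hδ hδ1
  refine ⟨κ, hκ0, hκ1, n₁, fun n₀ x v hx hv N a hN ha0 ha1 hsq S hS P hP K hK z => ?_⟩
  obtain ⟨T, hT⟩ : ∃ T : ℝ, T = ((s.den * ⌈192 * ((d : ℝ) + 3) / (δ * η)⌉₊ + 1 : ℕ) : ℝ) := ⟨_, rfl⟩
  rw [← hT] at h ⊢
  have hT0 : 0 ≤ T := by rw [hT]; exact Nat.cast_nonneg _
  have hN1 : (1 : ℝ) ≤ N := by exact_mod_cast hN
  have hN0 : (0 : ℝ) < N := by linarith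
  obtain ⟨X, hX⟩ : ∃ X : ℝ, X = (N : ℝ) ^ (κ / 2) := ⟨_, rfl⟩
  have hX1 : 1 ≤ X := by rw [hX]; exact Real.one_le_rpow hN1 (by positivity)
  obtain ⟨W, hW⟩ : ∃ W, W = ⌊X⌋₊ := ⟨_, rfl⟩
  have hWX : (W : ℝ) ≤ X := by rw [hW]; exact Nat.floor_le (by linarith)
  have hW1 : 1 ≤ W := by rw [hW]; exact Nat.le_floor (by simpa using hX1)
  have hWr : (1 : ℝ) ≤ W := by exact_mod_cast hW1
  have hXW : X ≤ 2 * W := by
    have : X < W + 1 := by rw [hW]; exact Nat.lt_floor_add_one X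
    linarith
  obtain ⟨Y, hY⟩ : ∃ Y : ℝ, Y = (N : ℝ) ^ (1 - κ / 2) := ⟨_, rfl⟩
  rw [← hY]
  have hY1 : 1 ≤ Y := by rw [hY]; exact Real.one_le_rpow hN1 (by linarith)
  have hNX : (N : ℝ) = X * Y := by
    rw [hX, hY, ← Real.rpow_add hN0]
    simp
  have hdiv : ((N / W : ℕ) : ℝ) ≤ 2 * Y := by
    refine Nat.cast_div_le.trans ?_
    rw [div_le_iff₀ (by linarith), hNX]
    have : 0 ≤ Y := by linarith
    nlinarith
  have hJ : ((N / W + 1 : ℕ) : ℝ) ≤ 3 * Y := by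
    push_cast
    linarith
  have hmaps : ∀ m ∈ S, (m - a) / W ∈ range (N / W + 1) := by
    intro m hm
    have := mem_Icc.1 (hS hm)
    rw [mem_range, Nat.lt_succ_iff]
    exact Nat.div_le_div_right (by omega)
  have hK0 : (0 : ℝ) ≤ K := Nat.cast_nonneg K
  -- one window
  have hone : ∀ i ∈ range (N / W + 1),
      ∑ k ∈ range K, ‖∑ m ∈ S.filter (fun m => (m - a) / W = i), z m * e ((P m).eval (k : ℝ))‖ ^ 2 ≤
        T * K * ∑ m ∈ S.filter (fun m => (m - a) / W = i), ‖z m‖ ^ 2 := by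
    intro i _
    rcases (S.filter (fun m => (m - a) / W = i)).eq_empty_or_nonempty with h0 | ⟨m₀, hm₀⟩
    · rw [h0]
      simp
    · rw [mem_filter] at hm₀
      have hm₀' := mem_Icc.1 (hS hm₀.1)
      have h1 : a + i * W ≤ m₀ := by
        have := Nat.div_mul_le_self (m₀ - a) W
        rw [hm₀.2] at this
        omega
      have hnN : ((a + i * W : ℕ) : ℝ) ≤ N := by exact_mod_cast h1.trans hm₀'.2
      refine h n₀ x v hx hv (a + i * W) (by omega) (by omega) _ ?_ P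
        (fun m hm => hP m (mem_filter.1 hm).1) K ?_ z
      · intro m hm
        rw [mem_filter] at hm
        have hm' := mem_Icc.1 (hS hm.1)
        have h2 := Nat.div_mul_le_self (m - a) W
        have h3 := Nat.lt_div_mul_add hW1 (a := m - a)
        rw [hm.2] at h2 h3
        refine ⟨by omega, ?_⟩
        have h4 : (m : ℝ) ≤ ((a + i * W : ℕ) : ℝ) + W := by
          have : m ≤ a + i * W + W := by omega
          exact_mod_cast this
        have h5 : X ≤ ((a + i * W : ℕ) : ℝ) ^ κ := by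
          have h6 : X = Real.sqrt N ^ κ := by
            rw [hX, Real.sqrt_eq_rpow, ← Real.rpow_mul hN0.le]
            congr 1
            ring
          rw [h6]
          refine Real.rpow_le_rpow (Real.sqrt_nonneg _) (hsq.trans ?_) hκ0.le
          exact_mod_cast Nat.le_add_right a (i * W)
        linarith
      · refine le_trans (Real.exp_le_exp.2 ?_) hK
        exact mul_le_mul_of_nonneg_left hnN hδ.le
  have hk : ∀ k : ℕ, ‖∑ m ∈ S, z m * e ((P m).eval (k : ℝ))‖ ^ 2 ≤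
      ((N / W + 1 : ℕ) : ℝ) * ∑ i ∈ range (N / W + 1),
        ‖∑ m ∈ S.filter (fun m => (m - a) / W = i), z m * e ((P m).eval (k : ℝ))‖ ^ 2 := by
    intro k
    rw [← Finset.sum_fiberwise_of_maps_to hmaps]
    have h1 := norm_sum_le (range (N / W + 1))
      (fun i => ∑ m ∈ S.filter (fun m => (m - a) / W = i), z m * e ((P m).eval (k : ℝ)))
    refine (pow_le_pow_left₀ (norm_nonneg _) h1 2).trans ?_
    have h2 := sq_sum_le_card_mul_sum_sq (s := range (N / W + 1))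
      (f := fun i => ‖∑ m ∈ S.filter (fun m => (m - a) / W = i), z m * e ((P m).eval (k : ℝ))‖)
    rw [card_range] at h2
    exact_mod_cast h2
  calc ∑ k ∈ range K, ‖∑ m ∈ S, z m * e ((P m).eval (k : ℝ))‖ ^ 2
      ≤ ∑ k ∈ range K, ((N / W + 1 : ℕ) : ℝ) * ∑ i ∈ range (N / W + 1),
        ‖∑ m ∈ S.filter (fun m => (m - a) / W = i), z m * e ((P m).eval (k : ℝ))‖ ^ 2 :=
        Finset.sum_le_sum fun k _ => hk k
    _ = ((N / W + 1 : ℕ) : ℝ) * ∑ i ∈ range (N / W + 1), ∑ k ∈ range K,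
        ‖∑ m ∈ S.filter (fun m => (m - a) / W = i), z m * e ((P m).eval (k : ℝ))‖ ^ 2 := by
        rw [← Finset.mul_sum, Finset.sum_comm]
    _ ≤ ((N / W + 1 : ℕ) : ℝ) * ∑ i ∈ range (N / W + 1),
        T * K * ∑ m ∈ S.filter (fun m => (m - a) / W = i), ‖z m‖ ^ 2 :=
        mul_le_mul_of_nonneg_left (Finset.sum_le_sum hone) (Nat.cast_nonneg _)
    _ = ((N / W + 1 : ℕ) : ℝ) * (T * K * ∑ m ∈ S, ‖z m‖ ^ 2) := by
        rw [← Finset.mul_sum, Finset.sum_fiberwise_of_maps_to hmaps]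
    _ ≤ (3 * Y) * (T * K * ∑ m ∈ S, ‖z m‖ ^ 2) := by
        refine mul_le_mul_of_nonneg_right hJ ?_
        have : 0 ≤ ∑ m ∈ S, ‖z m‖ ^ 2 := Finset.sum_nonneg fun _ _ => by positivity
        positivity
    _ = _ := by ring

open Classical in
/-- an inequality of Erdős–Turán type -/
theorem disc_bound (S : Finset ℕ) (y : ℕ → ℝ) (H : ℕ) (hH : 1 ≤ H) (ε : ℝ) (hε : 0 < ε) (hε1 : ε ≤ 1)
    (α β : ℝ) (h0 : 0 ≤ α) (h1 : α < β) (h2 : β ≤ 1) :
    |((S.filter (fun m => α ≤ Int.fract (y m) ∧ Int.fract (y m) < β)).card : ℝ) - (β - α) * S.card| ≤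
      2 * (∑ h ∈ Icc 1 H, ‖∑ m ∈ S, e (h * y m)‖ / h + S.card / (H * ε) + S.card * ε) := by
  have hshift : ∀ (γ : ℝ) (h : ℕ), ‖∑ m ∈ S, Pool.Agent.H469R2.NK.e (h * (y m - γ))‖ =
      ‖∑ m ∈ S, e (h * y m)‖ := by
    intro γ h
    have e1 : ∀ m ∈ S, Pool.Agent.H469R2.NK.e (h * (y m - γ)) = e (-(h * γ)) * e (h * y m) := by
      intro m _
      rw [e_eq, ← e_add]
      congr 1
      ring
    rw [Finset.sum_congr rfl e1, ← Finset.mul_sum, norm_mul, norm_e, one_mul]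
  have hs : ∀ γ : ℝ, |∑ m ∈ S, (Int.fract (y m - γ) - 1 / 2)| ≤
      ∑ h ∈ Icc 1 H, ‖∑ m ∈ S, e (h * y m)‖ / h + S.card / (H * ε) + S.card * ε := by
    intro γ
    have h3 := Pool.Agent.R485.Trans.saw_bound S (fun m => y m - γ) H hH ε hε hε1
    simp_rw [hshift γ] at h3
    exact h3
  have hsum : ((S.filter (fun m => α ≤ Int.fract (y m) ∧ Int.fract (y m) < β)).card : ℝ) -
      (β - α) * S.card = ∑ m ∈ S, (Int.fract (y m - β) - 1 / 2) -
      ∑ m ∈ S, (Int.fract (y m - α) - 1 / 2) := by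
    rw [← Finset.sum_sub_distrib]
    have h3 : ∀ m ∈ S, (Int.fract (y m - β) - 1 / 2) - (Int.fract (y m - α) - 1 / 2) =
        (if α ≤ Int.fract (y m) ∧ Int.fract (y m) < β then (1 : ℝ) else 0) - (β - α) := fun m _ =>
      (Pool.Agent.R485.Trans.indicator_eq (y m) α β h0 h1 h2).symm
    rw [Finset.sum_congr rfl h3, Finset.sum_sub_distrib, Finset.sum_ite, Finset.sum_const_zero, add_zero,
      Finset.sum_const, Finset.sum_const, nsmul_eq_mul, nsmul_eq_mul, mul_one]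
    ring
  rw [hsum]
  refine (abs_sub _ _).trans ?_
  have := hs α
  have := hs β
  linarith

theorem lead_mul {d : ℕ} {D : ℕ} {κ κ' : ℝ} {x : ℕ → ℝ} {v : ℕ → Fin d → ℝ} {P : ℝ[X]} {m : ℕ}
    (h : Lead D κ' x v P m) (j : ℕ) (hj : 1 ≤ j) (hκ : (j : ℝ) * Real.exp (κ' * m) ≤ Real.exp (κ * m)) :
    Lead D κ x v (Polynomial.C (j : ℝ) * P) m := by
  obtain ⟨hdeg, b, c, hb, hb1, hc1, hl⟩ := h
  have hj0 : (0 : ℝ) ≤ j := Nat.cast_nonneg j
  refine ⟨(natDegree_C_mul_le _ _).trans hdeg, j * b, fun i => j * c i,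
    mul_ne_zero (by exact_mod_cast (by omega : j ≠ 0)) hb, ?_, ?_, ?_⟩
  · push_cast
    rw [abs_mul, abs_of_nonneg hj0]
    exact (mul_le_mul_of_nonneg_left hb1 hj0).trans hκ
  · intro i
    push_cast
    rw [abs_mul, abs_of_nonneg hj0]
    exact (mul_le_mul_of_nonneg_left (hc1 i) hj0).trans hκ
  · rw [coeff_C_mul, hl]
    push_cast
    rw [mul_add, Finset.mul_sum]
    congr 1
    · ring
    · exact Finset.sum_congr rfl fun i _ => by ring

end Pool.Agent.T2H64.EN
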