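import Pool.Agent.T2H64.EN.Disc

/-!
# Discrepancy of polynomial dilates: the main theorem
-/

set_option autoImplicit false

namespace Pool.Agent.T2H64.EN

open Finset Filter Polynomial Pool.Agent.H332R2.Lit

theorem ev_sqrt (c : ℝ) (hc : 0 < c) : ∀ᶠ N : ℕ in atTop, 2 * (N : ℝ) ≤ Real.exp (c * Real.sqrt N) := by
  have h1 : Tendsto (fun N : ℕ => Real.sqrt (N : ℝ)) atTop atTop :=
    Real.tendsto_sqrt_atTop.comp tendsto_natCast_atTop_atTop
  filter_upwards [h1.eventually_ge_atTop (12 / c ^ 3)] with N hN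
  have h0 : 0 ≤ Real.sqrt (N : ℝ) := Real.sqrt_nonneg _
  have h2 : (c * Real.sqrt N) ^ 3 / (Nat.factorial 3 : ℕ) ≤ Real.exp (c * Real.sqrt N) :=
    Real.pow_div_factorial_le_exp _ (by positivity) 3
  refine le_trans ?_ h2
  have h3 : Real.sqrt (N : ℝ) ^ 2 = N := Real.sq_sqrt (Nat.cast_nonneg N)
  have h4 : ((Nat.factorial 3 : ℕ) : ℝ) = 6 := by norm_num [Nat.factorial]
  rw [h4, le_div_iff₀ (by norm_num), mul_pow]
  rw [div_le_iff₀ (by positivity)] at hN
  have h5 : Real.sqrt (N : ℝ) ^ 3 = Real.sqrt N * N := by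
    nth_rewrite 3 [← h3]
    ring
  have h6 : c ^ 3 * Real.sqrt (N : ℝ) ^ 3 = (Real.sqrt N * c ^ 3) * N := by rw [h5]; ring
  rw [h6]
  have h7 : (0 : ℝ) ≤ N := Nat.cast_nonneg N
  nlinarith

open Classical in
theorem disc_main (D d : ℕ) (s : ℚ) (hs : s ≠ 0) (B η δ : ℝ) (hη : 0 < η) (hη1 : η ≤ 1)
    (hδ : 0 < δ) (hδ1 : δ ≤ 1) : ∃ κ A : ℝ, 0 < κ ∧ ∀ (n₀ : ℕ) (x : ℕ → ℝ)
      (v : ℕ → Fin d → ℝ), Expo s B η n₀ x → Cocycle B η n₀ v → ∀ N : ℕ, 1 ≤ N → n₀ ≤ N →
      ∀ P : ℕ → ℝ[X], (∀ m ∈ Icc n₀ N, Lead D κ x v (P m) m) → ∀ K : ℕ, Real.exp (δ * N) ≤ K →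
      (((range K).filter (fun k : ℕ => ∃ α β : ℝ, 0 ≤ α ∧ α < β ∧ β ≤ 1 ∧ A * (N : ℝ) ^ (1 - κ) <
        |(((Icc n₀ N).filter (fun m => α ≤ Int.fract ((P m).eval (k : ℝ)) ∧
          Int.fract ((P m).eval (k : ℝ)) < β)).card : ℝ) - (β - α) * ((Icc n₀ N).card : ℝ)|)).card : ℝ) ≤
        A * (N : ℝ) ^ (-κ) * K := by
  obtain ⟨κ, hκ0, hκ1, n₁, h⟩ := sieve_range D d s hs B η δ hη hη1 hδ hδ1
  obtain ⟨T, hT⟩ : ∃ T : ℝ, T = ((s.den * ⌈192 * ((d : ℝ) + 3) / (δ * η)⌉₊ + 1 : ℕ) : ℝ) := ⟨_, rfl⟩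
  rw [← hT] at h
  have hT1 : 1 ≤ T := by
    rw [hT]
    push_cast
    have : (0 : ℝ) ≤ (s.den : ℝ) * (⌈192 * ((d : ℝ) + 3) / (δ * η)⌉₊ : ℝ) := by positivity
    linarith
  obtain ⟨N₂, hN₂⟩ := eventually_atTop.1 (ev_sqrt (κ / 2) (by positivity))
  obtain ⟨A, hA⟩ : ∃ A : ℝ, A = 2 * N₂ + 2 * n₁ + 10 + 6 * T := ⟨_, rfl⟩
  have hN₂0 : (0 : ℝ) ≤ N₂ := Nat.cast_nonneg _
  have hn₁0 : (0 : ℝ) ≤ n₁ := Nat.cast_nonneg _
  refine ⟨κ / 16, A, by positivity, fun n₀ x v hx hv N hN hnN P hP K hK => ?_⟩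
  have hN1 : (1 : ℝ) ≤ N := by exact_mod_cast hN
  have hN0 : (0 : ℝ) < N := by linarith
  have hK0 : (0 : ℝ) < K := (Real.exp_pos _).trans_le hK
  obtain ⟨Y, hY⟩ : ∃ Y : ℝ, Y = (N : ℝ) ^ (1 - κ / 16) := ⟨_, rfl⟩
  rw [← hY]
  have hY1 : 1 ≤ Y := by rw [hY]; exact Real.one_le_rpow hN1 (by linarith)
  have hrhs : 0 ≤ A * (N : ℝ) ^ (-(κ / 16)) * K := by
    have : 0 ≤ A := by rw [hA]; linarith
    positivity
  have htriv : ∀ (k : ℕ) (α β : ℝ), 0 ≤ α → α < β → β ≤ 1 → ∀ S : Finset ℕ, S ⊆ Icc n₀ N →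
      |((S.filter (fun m => α ≤ Int.fract ((P m).eval (k : ℝ)) ∧
          Int.fract ((P m).eval (k : ℝ)) < β)).card : ℝ) - (β - α) * (S.card : ℝ)| ≤ S.card := by
    intro k α β h0 h1 h2 S _
    have h3 : ((S.filter (fun m => α ≤ Int.fract ((P m).eval (k : ℝ)) ∧
          Int.fract ((P m).eval (k : ℝ)) < β)).card : ℝ) ≤ S.card := by
      exact_mod_cast card_filter_le _ _
    have h4 : (0 : ℝ) ≤ ((S.filter (fun m => α ≤ Int.fract ((P m).eval (k : ℝ)) ∧
          Int.fract ((P m).eval (k : ℝ)) < β)).card : ℝ) := Nat.cast_nonneg _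
    have h5 : (0 : ℝ) ≤ S.card := Nat.cast_nonneg _
    have h6 : (β - α) * (S.card : ℝ) ≤ 1 * S.card := mul_le_mul_of_nonneg_right (by linarith) h5
    have h7 : 0 ≤ (β - α) * (S.card : ℝ) := mul_nonneg (by linarith) h5
    rw [abs_le]
    constructor <;> linarith
  have hcardI : ((Icc n₀ N).card : ℝ) ≤ 2 * N := by
    rw [Nat.card_Icc]
    have : N + 1 - n₀ ≤ 2 * N := by omega
    exact_mod_cast this
  by_cases hNlarge : N < N₂
  · -- small `N`
    have hempty : (range K).filter (fun k : ℕ => ∃ α β : ℝ, 0 ≤ α ∧ α < β ∧ β ≤ 1 ∧ A * Y <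
        |(((Icc n₀ N).filter (fun m => α ≤ Int.fract ((P m).eval (k : ℝ)) ∧
          Int.fract ((P m).eval (k : ℝ)) < β)).card : ℝ) - (β - α) * ((Icc n₀ N).card : ℝ)|) = ∅ := by
      rw [Finset.filter_eq_empty_iff]
      rintro k _ ⟨α, β, h0, h1, h2, h3⟩
      have h4 := htriv k α β h0 h1 h2 (Icc n₀ N) (le_refl _)
      have h5 : (N : ℝ) ≤ N₂ := by exact_mod_cast hNlarge.le
      have h6 : A ≤ A * Y := le_mul_of_one_le_right (by rw [hA]; linarith) hY1
      rw [hA] at h6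
      rw [hA] at h3
      linarith
    rw [hempty, card_empty, Nat.cast_zero]
    exact hrhs
  · -- large `N`
    rw [not_lt] at hNlarge
    have hlargeN := hN₂ N hNlarge
    obtain ⟨a', ha'⟩ : ∃ a', a' = n₁ + ⌈Real.sqrt N⌉₊ := ⟨_, rfl⟩
    obtain ⟨a, ha⟩ : ∃ a, a = max n₀ a' := ⟨_, rfl⟩
    have ha1 : Real.sqrt N ≤ a := by
      have h1 := Nat.le_ceil (Real.sqrt N)
      have h2 : ((⌈Real.sqrt N⌉₊ : ℕ) : ℝ) ≤ a := by
        have : ⌈Real.sqrt N⌉₊ ≤ a := by rw [ha, ha']; exact le_trans (by omega) (le_max_right _ _)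
        exact_mod_cast this
      linarith
    have han : n₀ ≤ a := by rw [ha]; exact le_max_left _ _
    have han1 : n₁ ≤ a := by rw [ha, ha']; exact le_trans (by omega) (le_max_right _ _)
    have ha'Y : (a' : ℝ) ≤ (n₁ + 2) * Y := by
      have h1 := (Nat.ceil_lt_add_one (Real.sqrt_nonneg (N : ℝ))).le
      have h2 : Real.sqrt N ≤ Y := by
        rw [Real.sqrt_eq_rpow, hY]
        exact Real.rpow_le_rpow_of_exponent_le hN1 (by linarith)
      rw [ha']
      push_cast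
      nlinarith
    obtain ⟨S, hS⟩ : ∃ S : Finset ℕ, S = Icc a N := ⟨_, rfl⟩
    have hSsub : S ⊆ Icc n₀ N := by rw [hS]; exact Icc_subset_Icc han le_rfl
    have hScard : (S.card : ℝ) ≤ N := by
      have h1 : 1 ≤ a := by
        have : (0 : ℝ) < a := lt_of_lt_of_le (Real.sqrt_pos.2 hN0) ha1
        exact_mod_cast this
      rw [hS, Nat.card_Icc]
      have : N + 1 - a ≤ N := by omega
      exact_mod_cast this
    obtain ⟨H, hH⟩ : ∃ H, H = ⌈(N : ℝ) ^ (κ / 8)⌉₊ := ⟨_, rfl⟩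
    have hNκ1 : 1 ≤ (N : ℝ) ^ (κ / 8) := Real.one_le_rpow hN1 (by positivity)
    have hH1 : (N : ℝ) ^ (κ / 8) ≤ H := by rw [hH]; exact Nat.le_ceil _
    have hH2 : (H : ℝ) ≤ 2 * (N : ℝ) ^ (κ / 8) := by
      have := (Nat.ceil_lt_add_one (show 0 ≤ (N : ℝ) ^ (κ / 8) by linarith)).le
      rw [← hH] at this
      linarith
    have hHpos : 1 ≤ H := by
      have : (1 : ℝ) ≤ H := hNκ1.trans hH1
      exact_mod_cast this
    have hH3 : (H : ℝ) ≤ 2 * N := by
      have h1 : (N : ℝ) ^ (κ / 8) ≤ (N : ℝ) ^ (1 : ℝ) :=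
        Real.rpow_le_rpow_of_exponent_le hN1 (by linarith)
      rw [Real.rpow_one] at h1
      linarith
    obtain ⟨ε, hε⟩ : ∃ ε : ℝ, ε = (N : ℝ) ^ (-(κ / 16)) := ⟨_, rfl⟩
    have hε0 : 0 < ε := by rw [hε]; exact Real.rpow_pos_of_pos hN0 _
    have hε1 : ε ≤ 1 := by rw [hε]; exact Real.rpow_le_one_of_one_le_of_nonpos hN1 (by linarith)
    have hNε : (N : ℝ) * ε = Y := by
      rw [hε, hY]
      nth_rewrite 1 [← Real.rpow_one (N : ℝ)]
      rw [← Real.rpow_add hN0]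
      congr 1
    -- the mean values
    have hmean : ∀ j ∈ Icc 1 H, ∑ k ∈ range K, ‖∑ m ∈ S, e (j * (P m).eval (k : ℝ))‖ ≤
        3 * T * K * (N : ℝ) ^ (1 - κ / 4) := by
      intro j hj
      rw [mem_Icc] at hj
      have hlead : ∀ m ∈ S, Lead D κ x v (Polynomial.C (j : ℝ) * P m) m := by
        intro m hm
        refine lead_mul (hP m (hSsub hm)) j hj.1 ?_
        have h1 : (j : ℝ) ≤ Real.exp (κ / 2 * Real.sqrt N) := by
          have : (j : ℝ) ≤ H := by exact_mod_cast hj.2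
          linarith
        have h2 : Real.sqrt N ≤ m := by
          rw [hS, mem_Icc] at hm
          have : (a : ℝ) ≤ m := by exact_mod_cast hm.1
          linarith
        calc (j : ℝ) * Real.exp (κ / 16 * m) ≤ Real.exp (κ / 2 * Real.sqrt N) * Real.exp (κ / 16 * m) :=
              mul_le_mul_of_nonneg_right h1 (Real.exp_pos _).le
          _ = Real.exp (κ / 2 * Real.sqrt N + κ / 16 * m) := by rw [← Real.exp_add]
          _ ≤ Real.exp (κ * m) := by
              apply Real.exp_le_exp.2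
              have h3 : 0 ≤ Real.sqrt (N : ℝ) := Real.sqrt_nonneg _
              nlinarith
      have h1 := h n₀ x v hx hv N a hN han han1 ha1 S (by rw [hS]) (fun m => Polynomial.C (j : ℝ) * P m)
        hlead K hK (fun _ => 1)
      simp only [one_mul, eval_mul, eval_C, norm_one, one_pow, sum_const, nsmul_eq_mul, mul_one] at h1
      have h2 := sq_sum_le_card_mul_sum_sq (s := range K)
        (f := fun k => ‖∑ m ∈ S, e (j * (P m).eval (k : ℝ))‖)
      rw [card_range] at h2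
      have h3 : (∑ k ∈ range K, ‖∑ m ∈ S, e (j * (P m).eval (k : ℝ))‖) ^ 2 ≤
          (3 * T * K * (N : ℝ) ^ (1 - κ / 4)) ^ 2 := by
        refine h2.trans ?_
        have h4 : (N : ℝ) ^ (1 - κ / 2) * N = ((N : ℝ) ^ (1 - κ / 4)) ^ 2 := by
          nth_rewrite 2 [← Real.rpow_one (N : ℝ)]
          rw [← Real.rpow_add hN0, ← Real.rpow_natCast, ← Real.rpow_mul hN0.le]
          congr 1
          push_cast
          ring
        have h5 : 0 ≤ (N : ℝ) ^ (1 - κ / 2) := by positivity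
        calc (K : ℝ) * ∑ k ∈ range K, ‖∑ m ∈ S, e (j * (P m).eval (k : ℝ))‖ ^ 2
            ≤ K * (3 * T * (N : ℝ) ^ (1 - κ / 2) * K * S.card) :=
              mul_le_mul_of_nonneg_left h1 hK0.le
          _ ≤ K * (3 * T * (N : ℝ) ^ (1 - κ / 2) * K * N) := by gcongr
          _ = 3 * T * K ^ 2 * ((N : ℝ) ^ (1 - κ / 2) * N) := by ring
          _ = 3 * T * (K ^ 2 * ((N : ℝ) ^ (1 - κ / 4)) ^ 2) := by rw [h4]; ring
          _ ≤ (3 * T) ^ 2 * (K ^ 2 * ((N : ℝ) ^ (1 - κ / 4)) ^ 2) := by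
              apply mul_le_mul_of_nonneg_right _ (by positivity)
              nlinarith
          _ = _ := by ring
      exact (pow_le_pow_iff_left₀ (Finset.sum_nonneg fun _ _ => norm_nonneg _) (by positivity)
        two_ne_zero).1 h3
    obtain ⟨E, hE⟩ : ∃ E : ℕ → ℝ, E = fun k : ℕ => ∑ j ∈ Icc 1 H,
        ‖∑ m ∈ S, e (j * (P m).eval (k : ℝ))‖ / j := ⟨_, rfl⟩
    have hE0 : ∀ k, 0 ≤ E k := by
      intro k
      rw [hE]
      exact Finset.sum_nonneg fun j _ => by positivity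
    have hEsum : ∑ k ∈ range K, E k ≤ 6 * T * K * (N : ℝ) ^ (1 - κ / 8) := by
      rw [hE, Finset.sum_comm]
      have h1 : ∀ j ∈ Icc 1 H, ∑ k ∈ range K, ‖∑ m ∈ S, e (j * (P m).eval (k : ℝ))‖ / j ≤
          3 * T * K * (N : ℝ) ^ (1 - κ / 4) := by
        intro j hj
        refine le_trans (Finset.sum_le_sum fun k _ => ?_) (hmean j hj)
        have : (1 : ℝ) ≤ j := by exact_mod_cast (mem_Icc.1 hj).1
        exact div_le_self (norm_nonneg _) this
      refine (Finset.sum_le_sum h1).trans ?_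
      rw [sum_const, Nat.card_Icc, nsmul_eq_mul, Nat.add_sub_cancel]
      calc (H : ℝ) * (3 * T * K * (N : ℝ) ^ (1 - κ / 4))
          ≤ (2 * (N : ℝ) ^ (κ / 8)) * (3 * T * K * (N : ℝ) ^ (1 - κ / 4)) :=
            mul_le_mul_of_nonneg_right hH2 (by positivity)
        _ = 6 * T * K * ((N : ℝ) ^ (κ / 8) * (N : ℝ) ^ (1 - κ / 4)) := by ring
        _ = _ := by
            rw [← Real.rpow_add hN0]
            congr 2
            ring
    -- the exceptional `k`
    have hsub : (range K).filter (fun k : ℕ => ∃ α β : ℝ, 0 ≤ α ∧ α < β ∧ β ≤ 1 ∧ A * Y <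
        |(((Icc n₀ N).filter (fun m => α ≤ Int.fract ((P m).eval (k : ℝ)) ∧
          Int.fract ((P m).eval (k : ℝ)) < β)).card : ℝ) - (β - α) * ((Icc n₀ N).card : ℝ)|) ⊆
        (range K).filter (fun k : ℕ => Y < E k) := by
      intro k hk
      rw [mem_filter] at hk ⊢
      obtain ⟨hkK, α, β, h0, h1, h2, h3⟩ := hk
      refine ⟨hkK, ?_⟩
      by_contra hcon
      rw [not_lt] at hcon
      have h4 := disc_bound S (fun m => (P m).eval (k : ℝ)) H hHpos ε hε0 hε1 α β h0 h1 h2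
      have h5 : (S.card : ℝ) / (H * ε) ≤ Y := by
        rw [div_le_iff₀ (by positivity)]
        have h6 : (N : ℝ) ^ (κ / 8) * ε = (N : ℝ) ^ (κ / 16) := by
          rw [hε, ← Real.rpow_add hN0]
          congr 1
          ring
        have h7 : Y * (N : ℝ) ^ (κ / 16) = N := by
          rw [hY, ← Real.rpow_add hN0]
          simp
        calc (S.card : ℝ) ≤ N := hScard
          _ = Y * ((N : ℝ) ^ (κ / 8) * ε) := by rw [h6, h7]
          _ ≤ Y * (H * ε) := by gcongr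
      have h6 : (S.card : ℝ) * ε ≤ Y := by
        rw [← hNε]
        exact mul_le_mul_of_nonneg_right hScard hε0.le
      have hEk : ∑ j ∈ Icc 1 H, ‖∑ m ∈ S, e (j * (P m).eval (k : ℝ))‖ / j = E k := by rw [hE]
      rw [hEk] at h4
      -- the complement of `S`
      have h7 : (Icc n₀ N).card ≤ S.card + a' := by
        rw [hS, Nat.card_Icc, Nat.card_Icc, ha]
        omega
      obtain ⟨R, hR⟩ : ∃ R : Finset ℕ, R = Icc n₀ N \ S := ⟨_, rfl⟩
      have hRcard : (R.card : ℝ) ≤ a' := by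
        have h8 : R.card + S.card = (Icc n₀ N).card := by rw [hR]; exact card_sdiff_add_card_eq_card hSsub
        have : R.card ≤ a' := by omega
        exact_mod_cast this
      have hRI : ((R.card : ℝ)) + S.card = (Icc n₀ N).card := by
        have h8 : R.card + S.card = (Icc n₀ N).card := by rw [hR]; exact card_sdiff_add_card_eq_card hSsub
        exact_mod_cast h8
      have hfil : (((Icc n₀ N).filter (fun m => α ≤ Int.fract ((P m).eval (k : ℝ)) ∧
          Int.fract ((P m).eval (k : ℝ)) < β)).card : ℝ) =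
          ((R.filter (fun m => α ≤ Int.fract ((P m).eval (k : ℝ)) ∧
          Int.fract ((P m).eval (k : ℝ)) < β)).card : ℝ) +
          ((S.filter (fun m => α ≤ Int.fract ((P m).eval (k : ℝ)) ∧
          Int.fract ((P m).eval (k : ℝ)) < β)).card : ℝ) := by
        have h8 : Icc n₀ N = R ∪ S := by rw [hR]; exact (sdiff_union_of_subset hSsub).symm
        have h9 : Disjoint R S := by rw [hR]; exact sdiff_disjoint
        rw [h8, filter_union, card_union_of_disjoint (disjoint_filter_filter h9)]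
        push_cast
        rfl
      have h8 := htriv k α β h0 h1 h2 R (by rw [hR]; exact sdiff_subset)
      rw [hfil, ← hRI] at h3
      have h9 : ∀ u w p q b : ℝ, |(u + w) - b * (p + q)| ≤ |u - b * p| + |w - b * q| := by
        intro u w p q b
        have : (u + w) - b * (p + q) = (u - b * p) + (w - b * q) := by ring
        rw [this]
        exact abs_add_le _ _
      have h10 := h9 ((R.filter (fun m => α ≤ Int.fract ((P m).eval (k : ℝ)) ∧
          Int.fract ((P m).eval (k : ℝ)) < β)).card : ℝ)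
          ((S.filter (fun m => α ≤ Int.fract ((P m).eval (k : ℝ)) ∧
          Int.fract ((P m).eval (k : ℝ)) < β)).card : ℝ) R.card S.card (β - α)
      have h11 : A * Y = (2 * N₂ + 2 * n₁ + 10 + 6 * T) * Y := by rw [hA]
      have h12 : 0 ≤ N₂ * Y := by positivity
      have h13 : 0 ≤ T * Y := by positivity
      have h14 : 0 ≤ n₁ * Y := by positivity
      rw [h11] at h3
      nlinarith
    refine le_trans (Nat.cast_le.2 (card_le_card hsub)) ?_
    have hmarkov : (((range K).filter (fun k : ℕ => Y < E k)).card : ℝ) * Y ≤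
        6 * T * K * (N : ℝ) ^ (1 - κ / 8) := by
      calc (((range K).filter (fun k : ℕ => Y < E k)).card : ℝ) * Y
          = ∑ k ∈ (range K).filter (fun k : ℕ => Y < E k), Y := by rw [sum_const, nsmul_eq_mul]
        _ ≤ ∑ k ∈ (range K).filter (fun k : ℕ => Y < E k), E k :=
            Finset.sum_le_sum fun k hk => (mem_filter.1 hk).2.le
        _ ≤ ∑ k ∈ range K, E k :=
            Finset.sum_le_sum_of_subset_of_nonneg (filter_subset _ _) fun k _ _ => hE0 k
        _ ≤ _ := hEsum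
    have hpow : (N : ℝ) ^ (1 - κ / 8) = (N : ℝ) ^ (-(κ / 16)) * Y := by
      rw [hY, ← Real.rpow_add hN0]
      congr 1
      ring
    have hfin : (((range K).filter (fun k : ℕ => Y < E k)).card : ℝ) * Y ≤
        (A * (N : ℝ) ^ (-(κ / 16)) * K) * Y := by
      refine hmarkov.trans ?_
      rw [hpow]
      have h1 : 6 * T ≤ A := by rw [hA]; linarith
      have h2 : 0 ≤ (K : ℝ) * ((N : ℝ) ^ (-(κ / 16)) * Y) := by positivity
      calc 6 * T * K * ((N : ℝ) ^ (-(κ / 16)) * Y) = 6 * T * (K * ((N : ℝ) ^ (-(κ / 16)) * Y)) := by ring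
        _ ≤ A * (K * ((N : ℝ) ^ (-(κ / 16)) * Y)) := mul_le_mul_of_nonneg_right h1 h2
        _ = _ := by ring
    exact le_of_mul_le_mul_right hfin (by linarith)

end Pool.Agent.T2H64.EN
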