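import Pool.Agent.T2H64.EN.Core
import Pool.Agent.H771R3.EN.ARC

/-!
# The numbers `x n`, `x (n + 1) = (p / q) e ^ s x n`, and rational cocycles: all windows
-/

set_option autoImplicit false

namespace Pool.Agent.T2H64.EN

open Finset Filter Pool.Agent.H771R3.EN Pool.Agent.TH373.EN

/-- from `n₀` on `x (n + 1) = (p / q) e ^ s x n` with integers `p, q ≠ 0` of subexponential size,
and `e ^ (η n) ≤ |x n| ≤ e ^ (n / η)` -/
def Expo (s : ℚ) (B η : ℝ) (n₀ : ℕ) (x : ℕ → ℝ) : Prop :=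
  ∀ n, n₀ ≤ n → (∃ p q : ℤ, p ≠ 0 ∧ q ≠ 0 ∧ |(p : ℝ)| ≤ Real.exp (B * (n : ℝ) ^ (1 - η)) ∧
      |(q : ℝ)| ≤ Real.exp (B * (n : ℝ) ^ (1 - η)) ∧ q * x (n + 1) = p * (Real.exp s * x n)) ∧
    Real.exp (η * n) ≤ |x n| ∧ |x n| ≤ Real.exp (n / η)

theorem ev_pow (C c a : ℝ) (hc : 0 < c) (ha : 0 < a) :
    ∀ᶠ n : ℕ in atTop, C ≤ c * (n : ℝ) ^ a := by
  have h1 : Tendsto (fun n : ℕ => (n : ℝ) ^ a) atTop atTop :=
    (tendsto_rpow_atTop ha).comp tendsto_natCast_atTop_atTop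
  filter_upwards [h1.eventually_ge_atTop (C / c)] with n hn
  rw [div_le_iff₀ hc] at hn
  linarith

theorem main_window (d : ℕ) (s : ℚ) (hs : s ≠ 0) (B η δ : ℝ) (hη : 0 < η) (hη1 : η ≤ 1)
    (hδ : 0 < δ) (hδ1 : δ ≤ 1) : ∃ κ : ℝ, 0 < κ ∧ κ ≤ 1 ∧ ∃ n₁ : ℕ, ∀ (n₀ : ℕ) (x : ℕ → ℝ)
      (v : ℕ → Fin d → ℝ), Expo s B η n₀ x → Cocycle B η n₀ v → ∀ n, n₀ ≤ n → n₁ ≤ n →
      {m : ℕ | n ≤ m ∧ (m : ℝ) ≤ n + (n : ℝ) ^ κ ∧ Close κ δ x v m}.ncard ≤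
        s.den * ⌈24 / ((δ * η / 2) / (d + 2))⌉₊ := by
  classical
  have hd0 : (0 : ℝ) ≤ d := Nat.cast_nonneg d
  obtain ⟨δ', hδ'⟩ : ∃ δ', δ' = δ * η / 2 := ⟨_, rfl⟩
  have hδ0 : 0 < δ' := by rw [hδ']; positivity
  have hδle : δ' ≤ 1 := by
    rw [hδ']
    have : δ * η ≤ 1 := mul_le_one₀ hδ1 hη.le hη1
    linarith
  obtain ⟨ε, hε⟩ : ∃ ε, ε = δ' / ((d : ℝ) + 2) := ⟨_, rfl⟩
  have hε0 : 0 < ε := by rw [hε]; positivity
  obtain ⟨k0, hk0⟩ : ∃ k, k = kap d δ' := ⟨_, rfl⟩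
  have hk0' : 0 < k0 := by rw [hk0]; exact kap_pos d δ' hδ0
  obtain ⟨u, hu⟩ : ∃ u : ℝ, u = (s.num.natAbs : ℝ) := ⟨_, rfl⟩
  have hu0 : 0 ≤ u := by rw [hu]; exact Nat.cast_nonneg _
  obtain ⟨κ, hκ⟩ : ∃ κ, κ = min (min (η / 2) (k0 / 2)) (ε ^ 2 * η / 80000) := ⟨_, rfl⟩
  have hκ0 : 0 < κ := by
    rw [hκ]
    refine lt_min (lt_min (by positivity) (by positivity)) (by positivity)
  have hκη : κ ≤ η / 2 := by rw [hκ]; exact (min_le_left _ _).trans (min_le_left _ _)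
  have hκk : κ ≤ k0 / 2 := by rw [hκ]; exact (min_le_left _ _).trans (min_le_right _ _)
  have hκε : κ ≤ ε ^ 2 * η / 80000 := by rw [hκ]; exact min_le_right _ _
  obtain ⟨n₂, hwin⟩ := window d δ' hδ0 hδle
  obtain ⟨c, hc⟩ : ∃ c, c = ε ^ 2 * η / 40000 := ⟨_, rfl⟩
  have hc0 : 0 < c := by rw [hc]; positivity
  obtain ⟨C, hC⟩ : ∃ C : ℝ, C = 2 * ((d : ℝ) + 1) + 2 * |B| + 2 * u + 1 := ⟨_, rfl⟩
  obtain ⟨n₁, hn₁⟩ := eventually_atTop.1 ((ev_pow C c (η / 2) hc0 (by positivity)).and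
    ((ev_pow (u + 1) ((η / 4) ^ k0) (k0 / 2) (Real.rpow_pos_of_pos (by positivity) _)
      (by positivity)).and ((ev_pow n₂ (η / 4) 1 (by positivity) one_pos).and
      (eventually_ge_atTop 1))))
  refine ⟨κ, hκ0, by linarith, n₁, fun n₀ x v hx hv n hn0 hn1 => ?_⟩
  obtain ⟨h1, h2, h3, hn⟩ := hn₁ n hn1
  rw [Real.rpow_one] at h3
  have hnr : (1 : ℝ) ≤ n := by exact_mod_cast hn
  have hn00 : (0 : ℝ) < n := by linarith
  obtain ⟨W, hW⟩ : ∃ W, W = ⌊(n : ℝ) ^ κ⌋₊ := ⟨_, rfl⟩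
  have hnκ : (0 : ℝ) ≤ (n : ℝ) ^ κ := by positivity
  have hW1 : (W : ℝ) ≤ (n : ℝ) ^ κ := by rw [hW]; exact Nat.floor_le hnκ
  have hnκ1 : (n : ℝ) ^ κ ≤ n := by
    calc (n : ℝ) ^ κ ≤ (n : ℝ) ^ (1 : ℝ) := Real.rpow_le_rpow_of_exponent_le hnr (by linarith)
      _ = n := Real.rpow_one _
  have hWn : W ≤ n := by exact_mod_cast hW1.trans hnκ1
  have hW0 : (0 : ℝ) ≤ W := Nat.cast_nonneg _
  have h2n : (1 : ℝ) ≤ (2 * n : ℝ) := by linarith
  have hη' : 0 ≤ 1 - η := by linarith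
  obtain ⟨Y, hY⟩ : ∃ Y, Y = |B| * (2 * n : ℝ) ^ (1 - η) := ⟨_, rfl⟩
  have hY0 : 0 ≤ Y := by rw [hY]; positivity
  obtain ⟨Z, hZ⟩ : ∃ Z : ℝ, Z = Real.log (d + 1) * (W + 1) + W * Y + u * (W + 1) + 1 := ⟨_, rfl⟩
  have hlogd : 0 ≤ Real.log ((d : ℝ) + 1) := Real.log_nonneg (by linarith)
  have hlogd' : Real.log ((d : ℝ) + 1) ≤ d + 1 := by
    have := Real.log_le_sub_one_of_pos (show (0 : ℝ) < d + 1 by positivity)
    linarith
  -- the bound for Z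
  have hpowη : (n : ℝ) ^ κ ≤ (n : ℝ) ^ (1 - η / 2) :=
    Real.rpow_le_rpow_of_exponent_le hnr (by linarith)
  have hone : 1 ≤ (n : ℝ) ^ (1 - η / 2) := Real.one_le_rpow hnr (by linarith)
  have hWp : (W : ℝ) + 1 ≤ 2 * (n : ℝ) ^ (1 - η / 2) := by linarith
  have hWY : W * Y ≤ 2 * |B| * (n : ℝ) ^ (1 - η / 2) := by
    have e1 : (2 * n : ℝ) ^ (1 - η) ≤ 2 * (n : ℝ) ^ (1 - η) := by
      rw [Real.mul_rpow (by norm_num) hn00.le]
      refine mul_le_mul_of_nonneg_right ?_ (by positivity)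
      calc (2 : ℝ) ^ (1 - η) ≤ (2 : ℝ) ^ (1 : ℝ) :=
            Real.rpow_le_rpow_of_exponent_le (by norm_num) (by linarith)
        _ = 2 := Real.rpow_one _
    have e2 : (W : ℝ) ≤ (n : ℝ) ^ (η / 2) :=
      hW1.trans (Real.rpow_le_rpow_of_exponent_le hnr hκη)
    calc W * Y ≤ (n : ℝ) ^ (η / 2) * (|B| * (2 * (n : ℝ) ^ (1 - η))) := by
          rw [hY]
          gcongr
      _ = 2 * |B| * ((n : ℝ) ^ (η / 2) * (n : ℝ) ^ (1 - η)) := by ring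
      _ = 2 * |B| * (n : ℝ) ^ (1 - η / 2) := by
          rw [← Real.rpow_add hn00]
          congr 2
          ring
  have hZC : Z ≤ C * (n : ℝ) ^ (1 - η / 2) := by
    have e1 : Real.log (d + 1) * ((W : ℝ) + 1) ≤ (d + 1) * (2 * (n : ℝ) ^ (1 - η / 2)) := by
      gcongr
    have e2 : u * ((W : ℝ) + 1) ≤ u * (2 * (n : ℝ) ^ (1 - η / 2)) := by gcongr
    rw [hZ, hC]
    linarith
  have hZn : Z ≤ ε ^ 2 * η / 40000 * n := by
    rw [← hc]
    calc Z ≤ C * (n : ℝ) ^ (1 - η / 2) := hZC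
      _ ≤ (c * (n : ℝ) ^ (η / 2)) * (n : ℝ) ^ (1 - η / 2) := by gcongr
      _ = c * ((n : ℝ) ^ (η / 2) * (n : ℝ) ^ (1 - η / 2)) := by ring
      _ = c * n := by
          rw [← Real.rpow_add hn00]
          congr 1
          rw [show η / 2 + (1 - η / 2) = (1 : ℝ) by ring, Real.rpow_one]
  have hWY0 : 0 ≤ W * Y := mul_nonneg hW0 hY0
  have huW0 : 0 ≤ u * ((W : ℝ) + 1) := by positivity
  have hlW0 : 0 ≤ Real.log (d + 1) * ((W : ℝ) + 1) := by positivity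
  have hH : ∀ m : ℕ, n ≤ m → m < n + W → Real.exp (B * (m : ℝ) ^ (1 - η)) ≤ Real.exp Y := by
    intro m hm1 hm2
    apply Real.exp_le_exp.2
    rw [hY]
    have h5 : (m : ℝ) ≤ 2 * n := by
      have : m ≤ 2 * n := by omega
      exact_mod_cast this
    calc B * (m : ℝ) ^ (1 - η) ≤ |B| * (m : ℝ) ^ (1 - η) :=
          mul_le_mul_of_nonneg_right (le_abs_self B) (by positivity)
      _ ≤ |B| * (2 * n : ℝ) ^ (1 - η) := by gcongr
  have hcore := core s hs κ η δ hη hη1 hδ hδ1 n₂ (by rw [← hδ']; exact hwin) n W Z (Real.exp Y)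
    hn hWn (Real.one_le_exp hY0) hκ0.le
    (by
      have e1 : (0 : ℝ) < d + 1 := by positivity
      calc ((d : ℝ) + 1) * (((d : ℝ) + 1) * Real.exp Y) ^ W
          = ((d : ℝ) + 1) ^ (W + 1) * Real.exp Y ^ W := by rw [mul_pow]; ring
        _ = Real.exp (Real.log (d + 1) * (W + 1) + W * Y) := by
            have e2 : Real.log ((d : ℝ) + 1) * ((W : ℝ) + 1) =
                ((W + 1 : ℕ) : ℝ) * Real.log ((d : ℝ) + 1) := by
              push_cast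
              ring
            rw [Real.exp_add, Real.exp_nat_mul Y W, e2, Real.exp_nat_mul, Real.exp_log e1]
        _ ≤ Real.exp Z := by
            apply Real.exp_le_exp.2
            rw [hZ]
            linarith)
    (by rw [hZ]; linarith) (by rw [← hu, hZ]; linarith) (by rw [← hδ', ← hε]; exact hκε)
    (by rw [← hδ', ← hε]; exact hZn) (by linarith)
    (by
      rw [← hδ', ← hk0]
      push_cast
      rw [← hu]
      have e1 : u * W + 1 ≤ (u + 1) * (n : ℝ) ^ κ := by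
        have : 1 ≤ (n : ℝ) ^ κ := Real.one_le_rpow hnr hκ0.le
        nlinarith
      have e2 : (n : ℝ) ^ κ ≤ (n : ℝ) ^ (k0 / 2) := Real.rpow_le_rpow_of_exponent_le hnr hκk
      have e3 : η * n / 4 = η / 4 * n := by ring
      calc u * W + 1 ≤ (u + 1) * (n : ℝ) ^ (k0 / 2) := e1.trans (by gcongr)
        _ ≤ ((η / 4) ^ k0 * (n : ℝ) ^ (k0 / 2)) * (n : ℝ) ^ (k0 / 2) := by gcongr
        _ = (η / 4) ^ k0 * ((n : ℝ) ^ (k0 / 2) * (n : ℝ) ^ (k0 / 2)) := by ring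
        _ = (η * n / 4) ^ k0 := by
            rw [← Real.rpow_add hn00, e3, Real.mul_rpow (by positivity) hn00.le]
            congr 2
            ring)
    x v
    (fun m hm1 hm2 => by
      obtain ⟨q, M, h4, h5, h6, h7⟩ := hv m (hn0.trans hm1)
      exact ⟨q, M, h4, h5.trans (hH m hm1 hm2), fun i j => (h6 i j).trans (hH m hm1 hm2), h7⟩)
    (fun m hm1 hm2 => by
      obtain ⟨⟨p, q, h4, h5, h6, h7, h8⟩, -⟩ := hx m (hn0.trans hm1)
      exact ⟨p, q, h4, h5, h6.trans (hH m hm1 hm2), h7.trans (hH m hm1 hm2), h8⟩)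
    (hx n hn0).2.1 (hx n hn0).2.2
  -- all classes
  have hsub : {m : ℕ | n ≤ m ∧ (m : ℝ) ≤ n + (n : ℝ) ^ κ ∧ Close κ δ x v m} ⊆
      ((((range s.den).biUnion (fun c => (range (W + 1)).filter
        (fun j : ℕ => j % s.den = c ∧ Close κ δ x v (n + j)))).image (fun j => n + j) :
        Finset ℕ) : Set ℕ) := by
    rintro m ⟨hm1, hm2, hm3⟩
    rw [Finset.mem_coe, mem_image]
    refine ⟨m - n, ?_, by omega⟩
    rw [mem_biUnion]
    refine ⟨(m - n) % s.den, mem_range.2 (Nat.mod_lt _ s.den_pos), ?_⟩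
    rw [mem_filter, mem_range]
    refine ⟨?_, rfl, ?_⟩
    · rw [Nat.lt_succ_iff, hW]
      apply Nat.le_floor
      rw [Nat.cast_sub hm1]
      linarith
    · rw [Nat.add_sub_cancel' hm1]
      exact hm3
  calc {m : ℕ | n ≤ m ∧ (m : ℝ) ≤ n + (n : ℝ) ^ κ ∧ Close κ δ x v m}.ncard
      ≤ (((range s.den).biUnion (fun c => (range (W + 1)).filter
        (fun j : ℕ => j % s.den = c ∧ Close κ δ x v (n + j)))).image (fun j => n + j)).card := by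
        rw [← Set.ncard_coe_finset]
        exact Set.ncard_le_ncard hsub (Finset.finite_toSet _)
    _ ≤ ((range s.den).biUnion (fun c => (range (W + 1)).filter
        (fun j : ℕ => j % s.den = c ∧ Close κ δ x v (n + j)))).card := card_image_le
    _ ≤ ∑ c ∈ range s.den, ((range (W + 1)).filter
        (fun j : ℕ => j % s.den = c ∧ Close κ δ x v (n + j))).card := card_biUnion_le
    _ ≤ ∑ c ∈ range s.den, ⌈24 / ((δ * η / 2) / (d + 2))⌉₊ :=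
        sum_le_sum fun c hc => hcore c (mem_range.1 hc)
    _ = _ := by rw [sum_const, card_range, smul_eq_mul]

theorem main (d : ℕ) (s : ℚ) (hs : s ≠ 0) (B η δ : ℝ) (hη : 0 < η) (hη1 : η ≤ 1)
    (hδ : 0 < δ) (hδ1 : δ ≤ 1) : ∃ (κ A : ℝ) (n₁ : ℕ), 0 < κ ∧ ∀ (n₀ : ℕ) (x : ℕ → ℝ)
      (v : ℕ → Fin d → ℝ), Expo s B η n₀ x → Cocycle B η n₀ v →
      (∀ n, n₀ ≤ n → n₁ ≤ n →
        {m : ℕ | n ≤ m ∧ (m : ℝ) ≤ n + (n : ℝ) ^ κ ∧ Close κ δ x v m}.ncard ≤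
          s.den * ⌈48 * ((d : ℝ) + 2) / (δ * η)⌉₊) ∧
      ∀ N : ℕ, 1 ≤ N → ({m : ℕ | n₀ ≤ m ∧ m ≤ N ∧ Close κ δ x v m}.ncard : ℝ) ≤
        A * (N : ℝ) ^ (1 - κ / 2) := by
  classical
  obtain ⟨κ, hκ0, hκ1, n₁, h⟩ := main_window d s hs B η δ hη hη1 hδ hδ1
  have hd0 : (0 : ℝ) ≤ d := Nat.cast_nonneg d
  have eT : (24 : ℝ) / ((δ * η / 2) / (d + 2)) = 48 * ((d : ℝ) + 2) / (δ * η) := by
    field_simp
    ring
  rw [eT] at h
  obtain ⟨T, hT⟩ : ∃ T, T = s.den * ⌈48 * ((d : ℝ) + 2) / (δ * η)⌉₊ := ⟨_, rfl⟩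
  rw [← hT] at h ⊢
  refine ⟨κ, (n₁ : ℝ) + 3 + 3 * T, n₁, hκ0, fun n₀ x v hx hv => ⟨h n₀ x v hx hv, fun N hN => ?_⟩⟩
  have hN1 : (1 : ℝ) ≤ N := by exact_mod_cast hN
  have hN0 : (0 : ℝ) < N := by linarith
  have hT0 : (0 : ℝ) ≤ T := Nat.cast_nonneg _
  obtain ⟨X, hX⟩ : ∃ X : ℝ, X = (N : ℝ) ^ (κ / 2) := ⟨_, rfl⟩
  have hX1 : 1 ≤ X := by rw [hX]; exact Real.one_le_rpow hN1 (by positivity)
  obtain ⟨W, hW⟩ : ∃ W, W = ⌊X⌋₊ := ⟨_, rfl⟩
  have hWX : (W : ℝ) ≤ X := by rw [hW]; exact Nat.floor_le (by linarith)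
  have hW1 : 1 ≤ W := by rw [hW]; exact Nat.le_floor (by simpa using hX1)
  have hWr : (1 : ℝ) ≤ W := by exact_mod_cast hW1
  have hXW : X ≤ 2 * W := by
    have : X < W + 1 := by rw [hW]; exact Nat.lt_floor_add_one X
    linarith
  obtain ⟨a, ha⟩ : ∃ a, a = n₁ + ⌈Real.sqrt N⌉₊ := ⟨_, rfl⟩
  have ha1 : Real.sqrt N ≤ a := by
    rw [ha]
    push_cast
    have := Nat.le_ceil (Real.sqrt N)
    have h5 : (0 : ℝ) ≤ n₁ := Nat.cast_nonneg _
    linarith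
  have ha2 : (a : ℝ) ≤ n₁ + (Real.sqrt N + 1) := by
    rw [ha]
    push_cast
    have := (Nat.ceil_lt_add_one (Real.sqrt_nonneg (N : ℝ))).le
    linarith
  have hcov := arc_cover (fun m => n₀ ≤ m ∧ Close κ δ x v m) N a W hW1 (T : ℝ) hT0 (by
    intro i hi
    obtain ⟨n, hn⟩ : ∃ n, n = max (a + i * W) n₀ := ⟨_, rfl⟩
    have hn1 : a + i * W ≤ n := by rw [hn]; exact le_max_left _ _
    have hn2 : n₀ ≤ n := by rw [hn]; exact le_max_right _ _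
    have h1 := h n₀ x v hx hv n hn2 (by omega)
    have hfin : {m : ℕ | n ≤ m ∧ (m : ℝ) ≤ n + (n : ℝ) ^ κ ∧ Close κ δ x v m}.Finite := by
      refine Set.Finite.subset (Set.finite_Iic (⌊(n : ℝ) + (n : ℝ) ^ κ⌋₊)) ?_
      rintro m ⟨-, hm, -⟩
      exact Nat.le_floor hm
    have h2 : ((range W).filter (fun j => n₀ ≤ a + i * W + j ∧ Close κ δ x v (a + i * W + j))).card ≤
        {m : ℕ | n ≤ m ∧ (m : ℝ) ≤ n + (n : ℝ) ^ κ ∧ Close κ δ x v m}.ncard := by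
      rw [← Finset.card_image_of_injective _ (add_right_injective (a + i * W)),
        ← Set.ncard_coe_finset]
      refine Set.ncard_le_ncard ?_ hfin
      intro m hm
      rw [Finset.mem_coe, mem_image] at hm
      obtain ⟨j, hj, rfl⟩ := hm
      rw [mem_filter, mem_range] at hj
      refine ⟨?_, ?_, hj.2.2⟩
      · rw [hn]
        exact max_le (by omega) hj.2.1
      · have h3 : ((a + i * W + j : ℕ) : ℝ) ≤ n + W := by
          have : a + i * W + j ≤ n + W := by omega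
          exact_mod_cast this
        refine h3.trans ?_
        have h4 : Real.sqrt N ≤ n := by
          have : (a : ℝ) ≤ n := by
            have : a ≤ n := by
              have := Nat.zero_le (i * W)
              omega
            exact_mod_cast this
          linarith
        have h5 : X ≤ (n : ℝ) ^ κ := by
          have h6 : X = Real.sqrt N ^ κ := by
            rw [hX, Real.sqrt_eq_rpow, ← Real.rpow_mul hN0.le]
            congr 1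
            ring
          rw [h6]
          exact Real.rpow_le_rpow (Real.sqrt_nonneg _) h4 hκ0.le
        linarith
    exact_mod_cast h2.trans h1)
  have hset : {m : ℕ | n₀ ≤ m ∧ m ≤ N ∧ Close κ δ x v m}.ncard ≤
      ((Icc 1 N).filter (fun m => n₀ ≤ m ∧ Close κ δ x v m)).card + 1 := by
    have h1 : {m : ℕ | n₀ ≤ m ∧ m ≤ N ∧ Close κ δ x v m} ⊆
        ((insert 0 ((Icc 1 N).filter (fun m => n₀ ≤ m ∧ Close κ δ x v m)) : Finset ℕ) : Set ℕ) := by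
      rintro m ⟨hm1, hm2, hm3⟩
      rw [Finset.mem_coe, mem_insert, mem_filter, mem_Icc]
      rcases Nat.eq_zero_or_pos m with h0 | h0
      · exact Or.inl h0
      · exact Or.inr ⟨⟨h0, hm2⟩, hm1, hm3⟩
    refine (Set.ncard_le_ncard h1 (Finset.finite_toSet _)).trans ?_
    rw [Set.ncard_coe_finset]
    exact card_insert_le _ _
  have hsetr : ({m : ℕ | n₀ ≤ m ∧ m ≤ N ∧ Close κ δ x v m}.ncard : ℝ) ≤
      (((Icc 1 N).filter (fun m => n₀ ≤ m ∧ Close κ δ x v m)).card : ℝ) + 1 := by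
    exact_mod_cast hset
  obtain ⟨Y, hY⟩ : ∃ Y : ℝ, Y = (N : ℝ) ^ (1 - κ / 2) := ⟨_, rfl⟩
  rw [← hY]
  have hY1 : 1 ≤ Y := by rw [hY]; exact Real.one_le_rpow hN1 (by linarith)
  have hsq : Real.sqrt N ≤ Y := by
    rw [Real.sqrt_eq_rpow, hY]
    exact Real.rpow_le_rpow_of_exponent_le hN1 (by linarith)
  have hNX : (N : ℝ) = X * Y := by
    rw [hX, hY, ← Real.rpow_add hN0]
    simp
  have hdiv : ((N / W : ℕ) : ℝ) ≤ 2 * Y := by
    refine Nat.cast_div_le.trans ?_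
    rw [div_le_iff₀ (by linarith), hNX]
    have : 0 ≤ Y := by linarith
    nlinarith
  have hn10 : (0 : ℝ) ≤ n₁ := Nat.cast_nonneg _
  have hfin2 : (a : ℝ) + ((N / W + 1 : ℕ) : ℝ) * T ≤ (n₁ + 2) * Y + 3 * T * Y := by
    have h1 : ((N / W + 1 : ℕ) : ℝ) ≤ 3 * Y := by
      push_cast
      linarith
    have h2 : ((N / W + 1 : ℕ) : ℝ) * T ≤ 3 * Y * T := mul_le_mul_of_nonneg_right h1 hT0
    nlinarith
  calc _ ≤ _ := hsetr
    _ ≤ ((n₁ + 2) * Y + 3 * T * Y) + 1 := by linarith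
    _ ≤ _ := by nlinarith

end Pool.Agent.T2H64.EN
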