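import Pool.Agent.T2H64.EN.Final
import Pool.Agent.TH869.LPS.WeylQ

/-!
# A large sieve inequality for polynomial dilates
-/

set_option autoImplicit false

namespace Pool.Agent.T2H64.EN

open Finset Filter Polynomial Pool.Agent.H332R2.Lit

/-- Schur's test -/
theorem schur {ι : Type*} (S : Finset ι) (K : ℕ) (a : ι → ℕ → ℂ) (z : ι → ℂ) (R : ℝ)
    (hR : ∀ m' ∈ S, ∑ m ∈ S, ‖∑ k ∈ range K, a m k * (starRingEnd ℂ) (a m' k)‖ ≤ R) :
    ∑ k ∈ range K, ‖∑ m ∈ S, z m * a m k‖ ^ 2 ≤ R * ∑ m ∈ S, ‖z m‖ ^ 2 := by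
  obtain ⟨G, hG⟩ : ∃ G : ι → ι → ℂ, G = fun m m' => ∑ k ∈ range K, a m k * (starRingEnd ℂ) (a m' k) :=
    ⟨_, rfl⟩
  have hsymm : ∀ m m', ‖G m m'‖ = ‖G m' m‖ := by
    intro m m'
    have : G m m' = (starRingEnd ℂ) (G m' m) := by
      simp only [hG, map_sum, map_mul, Complex.conj_conj]
      exact Finset.sum_congr rfl fun k _ => mul_comm _ _
    rw [this, RCLike.norm_conj]
  have h1 : ((∑ k ∈ range K, ‖∑ m ∈ S, z m * a m k‖ ^ 2 : ℝ) : ℂ) =
      ∑ m ∈ S, ∑ m' ∈ S, z m * (starRingEnd ℂ) (z m') * G m m' := by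
    push_cast
    have h2 : ∀ k ∈ range K, ((‖∑ m ∈ S, z m * a m k‖ : ℂ)) ^ 2 =
        ∑ m ∈ S, ∑ m' ∈ S, z m * (starRingEnd ℂ) (z m') * (a m k * (starRingEnd ℂ) (a m' k)) := by
      intro k _
      rw [← Complex.mul_conj', map_sum, Finset.sum_mul_sum]
      refine Finset.sum_congr rfl fun m _ => Finset.sum_congr rfl fun m' _ => ?_
      rw [map_mul]
      ring
    rw [Finset.sum_congr rfl h2, Finset.sum_comm]
    refine Finset.sum_congr rfl fun m _ => ?_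
    rw [Finset.sum_comm]
    refine Finset.sum_congr rfl fun m' _ => ?_
    rw [hG, Finset.mul_sum]
  have h3 : (∑ k ∈ range K, ‖∑ m ∈ S, z m * a m k‖ ^ 2 : ℝ) =
      ‖∑ m ∈ S, ∑ m' ∈ S, z m * (starRingEnd ℂ) (z m') * G m m'‖ := by
    rw [← h1, Complex.norm_real, Real.norm_of_nonneg (Finset.sum_nonneg fun _ _ => by positivity)]
  rw [h3]
  calc ‖∑ m ∈ S, ∑ m' ∈ S, z m * (starRingEnd ℂ) (z m') * G m m'‖
      ≤ ∑ m ∈ S, ∑ m' ∈ S, (‖z m‖ ^ 2 / 2 * ‖G m' m‖ + ‖z m'‖ ^ 2 / 2 * ‖G m m'‖) := by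
        refine (norm_sum_le _ _).trans (Finset.sum_le_sum fun m _ =>
          (norm_sum_le _ _).trans (Finset.sum_le_sum fun m' _ => ?_))
        rw [norm_mul, norm_mul, RCLike.norm_conj, hsymm m' m]
        have h4 : ‖z m‖ * ‖z m'‖ ≤ ‖z m‖ ^ 2 / 2 + ‖z m'‖ ^ 2 / 2 := by
          nlinarith [sq_nonneg (‖z m‖ - ‖z m'‖)]
        have h5 := mul_le_mul_of_nonneg_right h4 (norm_nonneg (G m m'))
        linarith
    _ = ∑ m ∈ S, ‖z m‖ ^ 2 / 2 * ∑ m' ∈ S, ‖G m' m‖ + ∑ m' ∈ S, ‖z m'‖ ^ 2 / 2 * ∑ m ∈ S, ‖G m m'‖ := by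
        simp_rw [Finset.sum_add_distrib]
        congr 1
        · refine Finset.sum_congr rfl fun m _ => ?_
          rw [Finset.mul_sum]
        · rw [Finset.sum_comm]
          refine Finset.sum_congr rfl fun m _ => ?_
          rw [Finset.mul_sum]
    _ ≤ ∑ m ∈ S, ‖z m‖ ^ 2 / 2 * R + ∑ m' ∈ S, ‖z m'‖ ^ 2 / 2 * R := by
        have h6 : ∀ m' ∈ S, ∑ m ∈ S, ‖G m m'‖ ≤ R := by
          intro m' hm'
          have := hR m' hm'
          rw [hG]
          exact this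
        exact add_le_add
          (Finset.sum_le_sum fun m hm => mul_le_mul_of_nonneg_left (h6 m hm) (by positivity))
          (Finset.sum_le_sum fun m hm => mul_le_mul_of_nonneg_left (h6 m hm) (by positivity))
    _ = R * ∑ m ∈ S, ‖z m‖ ^ 2 := by
        rw [← Finset.sum_add_distrib, Finset.mul_sum]
        refine Finset.sum_congr rfl fun m _ => ?_
        ring

/-- a constant coordinate may be added to a cocycle -/
theorem cocycle_cons {d : ℕ} {B η : ℝ} {n₀ : ℕ} {v : ℕ → Fin d → ℝ} (h : Cocycle B η n₀ v) (y : ℝ) :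
    Cocycle B η n₀ (fun m => (Fin.cons y (v m) : Fin (d + 1) → ℝ)) := by
  intro n hn
  obtain ⟨q, M, hq, hq1, hM1, hM2⟩ := h n hn
  refine ⟨q, Fin.cons (Fin.cons q (fun _ => 0)) (fun i => Fin.cons 0 (M i)), hq, hq1, ?_, ?_⟩
  · intro i j
    refine Fin.cases ?_ (fun i => ?_) i
    · refine Fin.cases ?_ (fun j => ?_) j
      · simpa using hq1
      · simpa using (Real.exp_pos _).le
    · refine Fin.cases ?_ (fun j => ?_) j
      · simpa using (Real.exp_pos _).le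
      · simpa using hM1 i j
  · intro i
    refine Fin.cases ?_ (fun i => ?_) i
    · simp [Fin.sum_univ_succ]
    · simp only [Fin.cons_succ, Fin.sum_univ_succ, Fin.cons_zero, Int.cast_zero, zero_mul, zero_add]
      exact hM2 i

/-- the hypothesis on the polynomials -/
def Lead {d : ℕ} (D : ℕ) (κ : ℝ) (x : ℕ → ℝ) (v : ℕ → Fin d → ℝ) (P : ℝ[X]) (m : ℕ) : Prop :=
  P.natDegree ≤ D + 1 ∧ ∃ (b : ℤ) (c : Fin d → ℤ), b ≠ 0 ∧ |(b : ℝ)| ≤ Real.exp (κ * m) ∧
    (∀ i, |(c i : ℝ)| ≤ Real.exp (κ * m)) ∧ P.coeff (D + 1) = b * x m + ∑ i, c i * v m i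

theorem ev_exp (C c : ℝ) (hc : 0 < c) : ∀ᶠ n : ℕ in atTop, C ≤ Real.exp (c * n) := by
  have h1 : Tendsto (fun n : ℕ => Real.exp (c * n)) atTop atTop :=
    Real.tendsto_exp_atTop.comp (tendsto_natCast_atTop_atTop.const_mul_atTop hc)
  exact h1.eventually_ge_atTop C

theorem ev_lin (c : ℝ) (hc : 0 < c) : ∀ᶠ n : ℕ in atTop, (n : ℝ) + 1 ≤ Real.exp (c * n) := by
  have h1 : Tendsto (fun n : ℕ => c * (n : ℝ)) atTop atTop :=
    tendsto_natCast_atTop_atTop.const_mul_atTop hc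
  filter_upwards [h1.eventually_ge_atTop (4 / c), eventually_ge_atTop 1] with n hn hn1
  have hn1r : (1 : ℝ) ≤ n := by exact_mod_cast hn1
  have h2 := Real.quadratic_le_exp_of_nonneg (show 0 ≤ c * n by positivity)
  rw [div_le_iff₀ hc] at hn
  nlinarith

open Classical in
/-- **the large sieve inequality in a window** -/
theorem sieve_window (D d : ℕ) (s : ℚ) (hs : s ≠ 0) (B η δ : ℝ) (hη : 0 < η) (hη1 : η ≤ 1)
    (hδ : 0 < δ) (hδ1 : δ ≤ 1) : ∃ κ : ℝ, 0 < κ ∧ κ ≤ 1 ∧ ∃ n₁ : ℕ, ∀ (n₀ : ℕ) (x : ℕ → ℝ)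
      (v : ℕ → Fin d → ℝ), Expo s B η n₀ x → Cocycle B η n₀ v → ∀ n, n₀ ≤ n → n₁ ≤ n →
      ∀ S : Finset ℕ, (∀ m ∈ S, n ≤ m ∧ (m : ℝ) ≤ n + (n : ℝ) ^ κ) → ∀ P : ℕ → ℝ[X],
      (∀ m ∈ S, Lead D κ x v (P m) m) → ∀ K : ℕ, Real.exp (δ * n) ≤ K → ∀ z : ℕ → ℂ,
      ∑ k ∈ range K, ‖∑ m ∈ S, z m * e ((P m).eval (k : ℝ))‖ ^ 2 ≤
        ((s.den * ⌈192 * ((d : ℝ) + 3) / (δ * η)⌉₊ + 1 : ℕ) : ℝ) * K * ∑ m ∈ S, ‖z m‖ ^ 2 := by
  obtain ⟨κ₀, hκ0, hκ1, n₁', hwin⟩ := main_window (d + 1) s hs B η (δ / 4) hη hη1 (by positivity)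
    (by linarith)
  have eT : (24 : ℝ) / ((δ / 4 * η / 2) / (((d + 1 : ℕ) : ℝ) + 2)) = 192 * ((d : ℝ) + 3) / (δ * η) := by
    push_cast
    field_simp
    ring
  rw [eT] at hwin
  obtain ⟨T, hT⟩ : ∃ T, T = s.den * ⌈192 * ((d : ℝ) + 3) / (δ * η)⌉₊ := ⟨_, rfl⟩
  rw [← hT] at hwin ⊢
  obtain ⟨C, hC1, hweyl⟩ := Pool.Agent.TH869.LPS.weylQ D
  have hCr : (1 : ℝ) ≤ C := by exact_mod_cast hC1
  obtain ⟨ρ, hρ⟩ : ∃ ρ : ℝ, ρ = min (κ₀ / (4 * C)) (δ / (4 * C)) := ⟨_, rfl⟩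
  have hρ0 : 0 < ρ := by rw [hρ]; exact lt_min (by positivity) (by positivity)
  have hρ1 : C * ρ ≤ κ₀ / 4 := by
    have h1 : ρ ≤ κ₀ / (4 * C) := by rw [hρ]; exact min_le_left _ _
    rw [le_div_iff₀ (by positivity)] at h1
    linarith
  have hρ2 : C * ρ ≤ δ / 4 := by
    have h1 : ρ ≤ δ / (4 * C) := by rw [hρ]; exact min_le_right _ _
    rw [le_div_iff₀ (by positivity)] at h1
    linarith
  obtain ⟨n₂, hn₂⟩ := eventually_atTop.1 ((ev_exp C (κ₀ / 4) (by positivity)).and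
    ((ev_exp C (δ / 4) (by positivity)).and ((ev_lin ρ hρ0).and (eventually_ge_atTop 1))))
  refine ⟨κ₀ / 2, by positivity, by linarith, max n₁' n₂, fun n₀ x v hx hv n hn0 hn1 S hS P hP K hK z => ?_⟩
  obtain ⟨h1, h2, h3, hn⟩ := hn₂ n ((le_max_right _ _).trans hn1)
  have hnr : (1 : ℝ) ≤ n := by exact_mod_cast hn
  have hK0 : (0 : ℝ) < K := (Real.exp_pos _).trans_le hK
  have hK1 : 1 ≤ K := by
    have : 0 < K := by exact_mod_cast hK0
    omega
  have hpow : (n : ℝ) ^ (κ₀ / 2) ≤ (n : ℝ) ^ κ₀ :=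
    Real.rpow_le_rpow_of_exponent_le hnr (by linarith)
  have hpow1 : (n : ℝ) ^ (κ₀ / 2) ≤ n := by
    calc (n : ℝ) ^ (κ₀ / 2) ≤ (n : ℝ) ^ (1 : ℝ) := Real.rpow_le_rpow_of_exponent_le hnr (by linarith)
      _ = n := Real.rpow_one _
  have hm2n : ∀ m ∈ S, (m : ℝ) ≤ 2 * n := fun m hm => by linarith [(hS m hm).2]
  have hScard : (S.card : ℝ) ≤ n + 1 := by
    have hsub : S ⊆ Icc n (2 * n) := by
      intro m hm
      rw [mem_Icc]
      refine ⟨(hS m hm).1, ?_⟩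
      exact_mod_cast hm2n m hm
    have := card_le_card hsub
    rw [Nat.card_Icc] at this
    have h4 : 2 * n + 1 - n = n + 1 := by omega
    rw [h4] at this
    exact_mod_cast this
  refine schur S K (fun m k => e ((P m).eval (k : ℝ))) z (((T + 1 : ℕ) : ℝ) * K) ?_
  intro m' hm'
  obtain ⟨y, hy⟩ : ∃ y, y = (P m').coeff (D + 1) := ⟨_, rfl⟩
  obtain ⟨v', hv'⟩ : ∃ v' : ℕ → Fin (d + 1) → ℝ, v' = fun m => (Fin.cons y (v m) : Fin (d + 1) → ℝ) :=
    ⟨_, rfl⟩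
  have hcoc : Cocycle B η n₀ v' := by rw [hv']; exact cocycle_cons hv y
  have hbad := hwin n₀ x v' hx hcoc n hn0 ((le_max_left _ _).trans hn1)
  have hterm : ∀ m, ‖∑ k ∈ range K, e ((P m).eval (k : ℝ)) * (starRingEnd ℂ) (e ((P m').eval (k : ℝ)))‖ ≤ K := by
    intro m
    refine (norm_sum_le _ _).trans ?_
    refine (Finset.sum_le_sum (fun k _ => (show _ ≤ (1 : ℝ) by
      rw [norm_mul, RCLike.norm_conj, norm_e, norm_e, mul_one]))).trans ?_
    simp
  have hgood : ∀ m ∈ S, ¬ Close κ₀ (δ / 4) x v' m →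
      ‖∑ k ∈ range K, e ((P m).eval (k : ℝ)) * (starRingEnd ℂ) (e ((P m').eval (k : ℝ)))‖ ≤
        Real.exp (-(ρ * n)) * K := by
    intro m hm hnc
    obtain ⟨hdeg, b, c, hb, hb1, hc1, hlead⟩ := hP m hm
    have hdeg' := (hP m' hm').1
    have e1 : ∀ k ∈ range K, e ((P m).eval (k : ℝ)) * (starRingEnd ℂ) (e ((P m').eval (k : ℝ))) =
        e ((P m - P m').eval (k : ℝ)) := by
      intro k _
      rw [eval_sub, sub_eq_add_neg, e_add]
      congr 1
      unfold e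
      rw [← Complex.exp_conj]
      congr 1
      simp only [map_mul, Complex.conj_ofReal, Complex.conj_I, map_ofNat]
      push_cast
      ring
    rw [Finset.sum_congr rfl e1]
    refine hweyl (Real.exp (-(ρ * n))) (Real.exp_pos _) (Real.exp_le_one_iff.2 (by
      rw [neg_nonpos]; positivity)) (P m - P m')
      ((natDegree_sub_le _ _).trans (max_le hdeg hdeg')) K hK1 ?_
    have hinv : (C : ℝ) * (1 / Real.exp (-(ρ * n))) ^ C = C * Real.exp (C * ρ * n) := by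
      rw [Real.exp_neg, one_div, inv_inv, ← Real.exp_nat_mul]
      congr 2
      ring
    rw [hinv]
    intro μ hμ1 hμ2
    have hμr : (1 : ℝ) ≤ μ := by exact_mod_cast hμ1
    by_contra hcon
    rw [not_le] at hcon
    apply hnc
    have hμb : (μ : ℝ) ≤ Real.exp (κ₀ / 2 * m) := by
      have h4 : (n : ℝ) ≤ m := by exact_mod_cast (hS m hm).1
      calc (μ : ℝ) ≤ C * Real.exp (C * ρ * n) := hμ2
        _ ≤ Real.exp (κ₀ / 4 * n) * Real.exp (κ₀ / 4 * n) := by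
            apply mul_le_mul h1 _ (Real.exp_pos _).le (Real.exp_pos _).le
            apply Real.exp_le_exp.2
            exact mul_le_mul_of_nonneg_right hρ1 (by linarith)
        _ = Real.exp (κ₀ / 2 * n) := by rw [← Real.exp_add]; congr 1; ring
        _ ≤ _ := Real.exp_le_exp.2 (mul_le_mul_of_nonneg_left h4 (by positivity))
    have hsplit : Real.exp (κ₀ * m) = Real.exp (κ₀ / 2 * m) * Real.exp (κ₀ / 2 * m) := by
      rw [← Real.exp_add]; congr 1; ring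
    have hone : (1 : ℝ) ≤ Real.exp (κ₀ / 2 * m) := Real.one_le_exp (by positivity)
    refine ⟨-round ((μ : ℝ) * (P m - P m').coeff (D + 1)), μ * b,
      Fin.cons (-(μ : ℤ)) (fun i => μ * c i), mul_ne_zero (by exact_mod_cast (by omega : μ ≠ 0)) hb,
      ?_, ?_, ?_⟩
    · push_cast
      rw [abs_mul, hsplit, abs_of_nonneg (show (0 : ℝ) ≤ μ by linarith)]
      exact mul_le_mul hμb hb1 (abs_nonneg _) (Real.exp_pos _).le
    · intro i
      refine Fin.cases ?_ (fun i => ?_) i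
      · simp only [Fin.cons_zero]
        push_cast
        rw [abs_neg, hsplit, abs_of_nonneg (show (0 : ℝ) ≤ μ by linarith)]
        exact hμb.trans (le_mul_of_one_le_left (Real.exp_pos _).le hone)
      · simp only [Fin.cons_succ]
        push_cast
        rw [abs_mul, hsplit, abs_of_nonneg (show (0 : ℝ) ≤ μ by linarith)]
        exact mul_le_mul hμb (hc1 i) (abs_nonneg _) (Real.exp_pos _).le
    · have e2 : ((-round ((μ : ℝ) * (P m - P m').coeff (D + 1)) : ℤ) : ℝ) +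
          ((μ * b : ℤ) : ℝ) * x m + ∑ i, (((Fin.cons (-(μ : ℤ)) (fun i => μ * c i) :
            Fin (d + 1) → ℤ) i : ℤ) : ℝ) * v' m i =
          (μ : ℝ) * (P m - P m').coeff (D + 1) - round ((μ : ℝ) * (P m - P m').coeff (D + 1)) := by
        rw [hv', Fin.sum_univ_succ]
        simp only [Fin.cons_zero, Fin.cons_succ]
        rw [coeff_sub, hlead, ← hy]
        push_cast
        have e3 : ∑ i, (μ : ℝ) * c i * v m i = μ * ∑ i, (c i : ℝ) * v m i := by
          rw [Finset.mul_sum]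
          exact Finset.sum_congr rfl fun i _ => by ring
        rw [e3]
        ring
      rw [e2]
      refine hcon.trans_le ?_
      have h4 : (C : ℝ) * Real.exp (C * ρ * n) / K ≤ Real.exp (-(δ / 2 * n)) := by
        rw [div_le_iff₀ hK0]
        calc (C : ℝ) * Real.exp (C * ρ * n) ≤ Real.exp (δ / 4 * n) * Real.exp (δ / 4 * n) := by
              apply mul_le_mul h2 _ (Real.exp_pos _).le (Real.exp_pos _).le
              apply Real.exp_le_exp.2
              exact mul_le_mul_of_nonneg_right hρ2 (by linarith)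
          _ = Real.exp (-(δ / 2 * n)) * Real.exp (δ * n) := by
              rw [← Real.exp_add, ← Real.exp_add]; congr 1; ring
          _ ≤ _ := mul_le_mul_of_nonneg_left hK (Real.exp_pos _).le
      refine h4.trans (Real.exp_le_exp.2 ?_)
      rw [neg_le_neg_iff]
      have := mul_le_mul_of_nonneg_left (hm2n m hm) (show 0 ≤ δ / 4 by positivity)
      linarith
  -- the row sum
  have hfin : {m : ℕ | n ≤ m ∧ (m : ℝ) ≤ n + (n : ℝ) ^ κ₀ ∧ Close κ₀ (δ / 4) x v' m}.Finite := by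
    refine Set.Finite.subset (Set.finite_Iic (⌊(n : ℝ) + (n : ℝ) ^ κ₀⌋₊)) ?_
    rintro m ⟨-, hm, -⟩
    exact Nat.le_floor hm
  have hcardB : (S.filter (fun m => Close κ₀ (δ / 4) x v' m)).card ≤ T := by
    refine le_trans ?_ hbad
    rw [← Set.ncard_coe_finset]
    refine Set.ncard_le_ncard ?_ hfin
    intro m hm
    rw [Finset.mem_coe, mem_filter] at hm
    exact ⟨(hS m hm.1).1, (hS m hm.1).2.trans (by linarith), hm.2⟩
  rw [← Finset.sum_filter_add_sum_filter_not S (fun m => Close κ₀ (δ / 4) x v' m)]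
  have hA : ∑ m ∈ S.filter (fun m => Close κ₀ (δ / 4) x v' m),
      ‖∑ k ∈ range K, e ((P m).eval (k : ℝ)) * (starRingEnd ℂ) (e ((P m').eval (k : ℝ)))‖ ≤ T * K := by
    refine (Finset.sum_le_sum fun m _ => hterm m).trans ?_
    rw [sum_const, nsmul_eq_mul]
    exact mul_le_mul_of_nonneg_right (by exact_mod_cast hcardB) hK0.le
  have hB : ∑ m ∈ S.filter (fun m => ¬ Close κ₀ (δ / 4) x v' m),
      ‖∑ k ∈ range K, e ((P m).eval (k : ℝ)) * (starRingEnd ℂ) (e ((P m').eval (k : ℝ)))‖ ≤ K := by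
    refine (Finset.sum_le_sum fun m hm => hgood m (mem_filter.1 hm).1 (mem_filter.1 hm).2).trans ?_
    rw [sum_const, nsmul_eq_mul]
    have h4 : ((S.filter (fun m => ¬ Close κ₀ (δ / 4) x v' m)).card : ℝ) ≤ Real.exp (ρ * n) := by
      refine le_trans ?_ (hScard.trans h3)
      exact_mod_cast card_filter_le _ _
    calc ((S.filter (fun m => ¬ Close κ₀ (δ / 4) x v' m)).card : ℝ) * (Real.exp (-(ρ * n)) * K)
        ≤ Real.exp (ρ * n) * (Real.exp (-(ρ * n)) * K) :=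
          mul_le_mul_of_nonneg_right h4 (by positivity)
      _ = K := by rw [← mul_assoc, ← Real.exp_add]; simp
  push_cast
  linarith

end Pool.Agent.T2H64.EN
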