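import Pool.Agent.TH373.EN.SpanArc

/-!
# The window theorem for large `n`
-/

set_option autoImplicit false

namespace Pool.Agent.T2H64.EN

open Finset Filter Pool.Agent.H771R3.EN Pool.Agent.TH373.EN

/-- the exponent of the length of the windows -/
noncomputable def kap (r : ℕ) (δ : ℝ) : ℝ :=
  δ / (r + 2) / (96 * ((⌈24 / (δ / (r + 2))⌉₊ : ℝ) + 1))

theorem kap_pos (r : ℕ) (δ : ℝ) (hδ : 0 < δ) : 0 < kap r δ := by
  unfold kap
  positivity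

theorem kap_le (r : ℕ) (δ : ℝ) (hδ : 0 < δ) (hδ1 : δ ≤ 1) : kap r δ ≤ 1 := by
  have hr0 : (0 : ℝ) ≤ r := Nat.cast_nonneg r
  unfold kap
  rw [div_div, div_le_one (by positivity)]
  have h1 : (0 : ℝ) ≤ (⌈24 / (δ / (r + 2))⌉₊ : ℝ) := Nat.cast_nonneg _
  have h2 : (1 : ℝ) * 1 ≤ ((r : ℝ) + 2) * (96 * ((⌈24 / (δ / (r + 2))⌉₊ : ℝ) + 1)) := by
    apply mul_le_mul <;> nlinarith
  linarith

theorem ev_log (ε : ℝ) (hε : 0 < ε) :
    ∀ᶠ n : ℕ in atTop, 64 * Real.log (Real.log n) ≤ ε / 6 * Real.log n := by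
  have h1 : Tendsto (fun n : ℕ => Real.log (n : ℝ)) atTop atTop :=
    Real.tendsto_log_atTop.comp tendsto_natCast_atTop_atTop
  have h2 := (Real.isLittleO_log_id_atTop.comp_tendsto h1).bound
    (show (0 : ℝ) < ε / 384 by positivity)
  filter_upwards [h2, h1.eventually_ge_atTop 1] with n h3 h4
  simp only [Function.comp_apply, id_eq, Real.norm_eq_abs] at h3
  rw [abs_of_nonneg (show (0 : ℝ) ≤ Real.log n by linarith)] at h3
  have := le_abs_self (Real.log (Real.log n))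
  linarith

open Classical in
theorem window (r : ℕ) (δ : ℝ) (hδ : 0 < δ) (hδ1 : δ ≤ 1) :
    ∃ n₂ : ℕ, ∀ n : ℕ, n₂ ≤ n → ∀ W : ℕ, (W : ℝ) ≤ (n : ℝ) ^ (kap r δ) →
      ∀ ξ : ℝ, ξ ≠ 0 → |Real.log (|ξ|)| ≤ 1 → ∀ τ : Fin r → ℝ,
      ((range W).filter (fun j : ℕ => BadS τ δ ξ (n + j))).card ≤ ⌈24 / (δ / (r + 2))⌉₊ := by
  obtain ⟨n1, hPAR⟩ := t_PAR
  have hr0 : (0 : ℝ) ≤ r := Nat.cast_nonneg r
  have hε0 : 0 < δ / (r + 2) := by positivity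
  obtain ⟨K, hK⟩ := eventually_atTop.1 (ev_log (δ / (r + 2)) hε0)
  refine ⟨max (max n1 K) (max (⌈6 / (δ / (r + 2))⌉₊ + 1) ⌈4 * (r : ℝ) * (r + 1) * (r + 2) / δ⌉₊),
    fun n hn W hW ξ hξ hL τ => ?_⟩
  rw [max_le_iff, max_le_iff, max_le_iff] at hn
  obtain ⟨⟨hn1, hn2⟩, hn3, hn4⟩ := hn
  have hn1' : 1 ≤ n := by omega
  have hnr : (1 : ℝ) ≤ n := by exact_mod_cast hn1'
  rcases Nat.eq_zero_or_pos W with rfl | hW1
  · simp
  have hWr : (0 : ℝ) < W := by exact_mod_cast hW1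
  refine windowS (t_FORM t_INT t_SIZ t_PF t_EXP t_PRO) t_VB n1 hPAR τ n W _ δ (δ / (r + 2)) ξ hn1
    hδ hδ1 rfl hξ rfl (fun n' h1 _ => hK n' (hn2.trans h1)) hW1 ?_ ?_ ?_ ?_
  · have h1 : (W : ℝ) ≤ n := by
      calc (W : ℝ) ≤ (n : ℝ) ^ (kap r δ) := hW
        _ ≤ (n : ℝ) ^ (1 : ℝ) := Real.rpow_le_rpow_of_exponent_le hnr (kap_le r δ hδ hδ1)
        _ = n := Real.rpow_one _
    exact_mod_cast h1
  · have h1 : Real.log W ≤ kap r δ * Real.log n := by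
      rw [← Real.log_rpow (by linarith)]
      exact Real.log_le_log hWr hW
    have h2 : 16 * ((⌈24 / (δ / (r + 2))⌉₊ : ℝ) + 1) * (kap r δ * Real.log n) =
        δ / (r + 2) / 6 * Real.log n := by
      unfold kap
      have : ((⌈24 / (δ / (r + 2))⌉₊ : ℝ) + 1) ≠ 0 := by positivity
      field_simp
      ring
    rw [← h2]
    exact mul_le_mul_of_nonneg_left h1 (by positivity)
  · have h1 : 6 / (δ / (r + 2)) ≤ (⌈6 / (δ / (r + 2))⌉₊ : ℝ) := Nat.le_ceil _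
    have h2 : ((⌈6 / (δ / (r + 2))⌉₊ : ℕ) : ℝ) ≤ n := by
      have : ⌈6 / (δ / (r + 2))⌉₊ ≤ n := by omega
      exact_mod_cast this
    have h3 := h1.trans h2
    rw [div_le_iff₀ hε0] at h3
    linarith
  · have h1 := Nat.le_ceil (4 * (r : ℝ) * (r + 1) * (r + 2) / δ)
    have h2 : ((⌈4 * (r : ℝ) * (r + 1) * (r + 2) / δ⌉₊ : ℕ) : ℝ) ≤ n := by exact_mod_cast hn4
    have h3 := h1.trans h2
    rw [div_le_iff₀ hδ] at h3
    linarith

end Pool.Agent.T2H64.EN
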